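import Mathlib

/-!
A triangle-free circulant graph on 29 vertices that is not 4-colourable.
-/

set_option autoImplicit false

namespace Pool.Agent.MP1d59

open SimpleGraph

/-- the circulant graph with connection set `1, 3, 7, 12` on 29 vertices -/
def C29 : SimpleGraph (Fin 29) where
  Adj x y := (x - y).val ∈ [1, 3, 7, 12, 17, 22, 26, 28]
  symm := ⟨by decide⟩
  loopless := ⟨by decide⟩

instance : DecidableRel C29.Adj := fun x y =>
  inferInstanceAs (Decidable ((x - y).val ∈ [1, 3, 7, 12, 17, 22, 26, 28]))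

/-- bit masks of the neighbourhoods -/
def nbl29 : List ℕ := [
  339873930, 142876949, 285753898, 34636885, 69273770, 138547540, 277095080, 17319249, 34638498,
  69276996, 138553992, 277107984, 17345057, 34690114, 69380228, 138760456, 277520912, 18170913,
  36341826, 72683652, 145367304, 290734608, 44598305, 89196610, 178393220, 356786440, 176701969,
  353403938, 169936965]

def nb29 (v : ℕ) : ℕ := nbl29.getD v 0

lemma nb29_spec : ∀ v u : Fin 29, Nat.testBit (nb29 v.val) u.val = decide (C29.Adj v u) := by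
  decide +kernel

/-- The checker: it consumes a search tree in Polish notation. -/
def chk29 : ℕ → List ℕ → ℕ → ℕ → ℕ → ℕ → Option (List ℕ)
  | 0, _, _, _, _, _ => none
  | _ + 1, [], _, _, _, _ => none
  | k + 1, a :: l, m0, m1, m2, m3 =>
    if a < 29 then
      let nb := nb29 a
      let b := 1 <<< a
      match (if m0 &&& nb = 0 then chk29 k l (m0 ||| b) m1 m2 m3 else some l) with
      | none => none
      | some l1 =>
        match (if m1 &&& nb = 0 then chk29 k l1 m0 (m1 ||| b) m2 m3 else some l1) with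
        | none => none
        | some l2 =>
          match (if m2 &&& nb = 0 then chk29 k l2 m0 m1 (m2 ||| b) m3 else some l2) with
          | none => none
          | some l3 =>
            if m3 &&& nb = 0 then chk29 k l3 m0 m1 m2 (m3 ||| b) else some l3
    else
      let nb := nb29 (a - 29)
      if a - 29 < 29 ∧ m0 &&& nb ≠ 0 ∧ m1 &&& nb ≠ 0 ∧ m2 &&& nb ≠ 0 ∧ m3 &&& nb ≠ 0 then some l
      else none

def cert29 : List ℕ := [
  1, 3, 7, 11, 14, 13, 15, 17, 21, 23, 24, 25, 27, 2, 5, 35, 26, 24, 6, 9, 8, 49, 20, 23, 26, 6,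
  47, 20, 23, 26, 18, 35, 16, 18, 23, 35, 10, 15, 16, 23, 26, 22, 27, 4, 21, 9, 24, 8, 49, 18,
  22, 8, 20, 56, 13, 15, 17, 21, 23, 26, 24, 6, 9, 8, 49, 24, 25, 27, 2, 5, 35, 20, 23, 26, 6,
  47, 20, 23, 26, 18, 35, 16, 18, 23, 35, 10, 15, 16, 23, 26, 22, 27, 4, 21, 9, 24, 8, 49, 18,
  22, 8, 20, 56, 12, 14, 18, 23, 16, 13, 20, 10, 9, 50, 13, 20, 8, 9, 50, 6, 13, 10, 9, 8, 5, 20,
  50, 21, 15, 9, 16, 23, 20, 37, 16, 23, 20, 37, 17, 21, 18, 4, 9, 16, 23, 13, 49, 8, 5, 25, 13,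
  35, 9, 8, 20, 23, 22, 13, 35, 8, 15, 16, 23, 49, 5, 8, 20, 21, 9, 16, 33, 8, 20, 23, 16, 9, 35,
  13, 14, 10, 16, 19, 18, 25, 24, 21, 20, 52, 23, 24, 21, 33, 15, 16, 18, 23, 35, 19, 20, 23, 24,
  17, 21, 2, 43, 23, 24, 20, 17, 21, 4, 45, 26, 20, 22, 6, 5, 9, 21, 47, 12, 14, 18, 23, 16, 13,
  20, 8, 9, 50, 13, 20, 10, 9, 50, 6, 13, 10, 9, 8, 5, 20, 50, 21, 15, 9, 16, 23, 20, 37, 16, 23,
  20, 37, 17, 21, 18, 4, 9, 8, 5, 25, 13, 35, 16, 23, 13, 49, 9, 8, 20, 23, 22, 13, 35, 8, 15,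
  16, 23, 49, 5, 8, 20, 21, 9, 16, 33, 8, 20, 23, 16, 9, 35, 13, 14, 10, 16, 23, 24, 21, 33, 19,
  18, 25, 24, 21, 20, 52, 15, 16, 18, 23, 35, 19, 20, 23, 24, 17, 21, 2, 43, 23, 24, 20, 17, 21,
  4, 45, 26, 20, 22, 6, 5, 9, 21, 47, 8, 10, 13, 20, 25, 27, 15, 12, 5, 16, 33, 20, 6, 23, 11,
  12, 18, 21, 53, 11, 9, 12, 15, 22, 5, 17, 19, 24, 56, 13, 16, 15, 22, 19, 18, 35, 20, 21, 18,
  54, 10, 11, 9, 12, 13, 20, 19, 23, 22, 15, 45, 13, 20, 21, 18, 54, 16, 15, 23, 26, 19, 18, 35,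
  13, 20, 17, 14, 21, 24, 23, 4, 6, 18, 40, 20, 25, 27, 15, 16, 19, 23, 51, 8, 10, 13, 20, 6, 23,
  11, 12, 18, 21, 53, 20, 25, 27, 15, 12, 5, 16, 33, 11, 9, 12, 15, 22, 5, 17, 19, 24, 56, 13,
  16, 15, 22, 19, 18, 35, 20, 21, 18, 54, 10, 11, 9, 12, 13, 20, 19, 23, 22, 15, 45, 13, 16, 15,
  23, 26, 19, 18, 35, 20, 21, 18, 54, 13, 20, 17, 14, 21, 24, 23, 4, 6, 18, 40, 20, 25, 27, 15,
  16, 19, 23, 51, 4, 6, 11, 18, 21, 23, 16, 13, 12, 17, 19, 49, 18, 21, 23, 16, 13, 12, 17, 19,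
  49, 5, 11, 12, 18, 15, 23, 25, 8, 22, 19, 20, 50, 12, 13, 10, 9, 25, 7, 37, 8, 25, 22, 15, 12,
  9, 45, 11, 18, 54, 6, 5, 11, 10, 7, 8, 9, 16, 15, 14, 25, 21, 20, 19, 41, 13, 16, 22, 21, 12,
  19, 26, 15, 17, 24, 20, 52, 12, 13, 16, 15, 18, 17, 23, 22, 19, 7, 21, 49, 8, 11, 18, 54, 25,
  9, 12, 13, 16, 15, 22, 10, 23, 40, 16, 15, 21, 20, 12, 19, 17, 47, 11, 18, 21, 23, 16, 13, 26,
  19, 2, 12, 5, 8, 44, 18, 21, 23, 16, 13, 25, 8, 24, 9, 10, 46, 4, 6, 11, 18, 21, 23, 16, 13,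
  12, 17, 19, 49, 18, 21, 23, 16, 13, 12, 17, 19, 49, 5, 11, 12, 13, 10, 9, 25, 7, 37, 12, 18,
  15, 23, 25, 8, 22, 19, 20, 50, 8, 25, 22, 15, 12, 9, 45, 11, 18, 54, 6, 5, 11, 10, 7, 8, 9, 16,
  15, 14, 25, 21, 20, 19, 41, 13, 16, 22, 21, 12, 19, 26, 15, 17, 24, 20, 52, 12, 13, 16, 15, 18,
  17, 23, 22, 19, 7, 21, 49, 8, 11, 18, 54, 25, 9, 12, 13, 16, 15, 22, 10, 23, 40, 16, 15, 21,
  20, 12, 19, 17, 47, 11, 18, 21, 23, 16, 13, 26, 19, 2, 12, 5, 8, 44, 18, 21, 23, 16, 13, 25, 8,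
  24, 9, 10, 46, 2, 27, 4, 11, 10, 9, 16, 13, 6, 17, 21, 22, 15, 43, 12, 16, 15, 14, 19, 17, 21,
  51, 9, 12, 14, 15, 17, 22, 34, 21, 22, 19, 55, 16, 21, 14, 15, 7, 19, 51, 8, 10, 12, 14, 16,
  19, 22, 25, 17, 34, 19, 22, 25, 17, 34, 17, 16, 19, 36, 9, 16, 17, 21, 22, 25, 14, 44, 12, 9,
  16, 19, 21, 14, 36, 14, 17, 16, 24, 23, 15, 22, 34, 21, 22, 19, 16, 23, 24, 36, 9, 10, 12, 16,
  17, 14, 19, 22, 34, 16, 15, 21, 20, 17, 43, 7, 6, 10, 13, 14, 12, 19, 18, 22, 24, 23, 20, 46,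
  15, 18, 22, 9, 25, 8, 20, 32, 13, 14, 26, 9, 3, 15, 18, 20, 22, 5, 12, 23, 24, 8, 40, 3, 5, 9,
  12, 15, 14, 17, 53, 26, 14, 13, 54, 6, 8, 10, 13, 25, 22, 23, 53, 11, 18, 17, 19, 12, 23, 49,
  10, 13, 20, 17, 18, 48, 9, 26, 14, 17, 18, 48, 3, 5, 9, 12, 15, 14, 17, 53, 26, 14, 15, 17, 19,
  41, 7, 8, 11, 10, 14, 12, 9, 16, 42, 19, 16, 22, 23, 20, 42, 9, 26, 14, 19, 12, 25, 18, 44, 10,
  16, 13, 12, 20, 48, 6, 10, 13, 14, 26, 25, 9, 8, 20, 32, 13, 14, 12, 15, 18, 22, 9, 25, 8, 20,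
  32, 19, 18, 22, 24, 23, 20, 46, 9, 10, 26, 12, 11, 18, 15, 37, 19, 18, 22, 50, 16, 13, 12, 14,
  23, 53, 5, 4, 8, 12, 15, 24, 11, 14, 18, 23, 7, 19, 55, 11, 10, 13, 14, 20, 46, 13, 9, 21, 6,
  14, 55, 11, 12, 10, 13, 14, 21, 17, 16, 22, 20, 23, 53, 13, 25, 7, 19, 55, 7, 24, 12, 17, 14,
  19, 22, 25, 8, 13, 18, 16, 44, 24, 10, 11, 12, 13, 19, 14, 17, 20, 23, 6, 8, 18, 22, 50, 3, 9,
  16, 13, 41, 8, 15, 14, 13, 35, 6, 12, 13, 24, 25, 14, 7, 19, 55, 15, 16, 19, 9, 21, 7, 37, 13,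
  10, 11, 14, 17, 18, 24, 21, 20, 19, 36, 11, 9, 26, 19, 7, 37, 7, 24, 9, 26, 14, 19, 41, 10, 13,
  26, 23, 20, 16, 48, 24, 12, 17, 14, 19, 22, 13, 16, 9, 39, 3, 4, 5, 8, 9, 15, 22, 12, 11, 10,
  13, 14, 16, 17, 20, 56, 22, 12, 11, 10, 56, 12, 15, 21, 51, 11, 12, 10, 13, 14, 15, 16, 22, 21,
  20, 23, 24, 9, 25, 26, 56, 17, 16, 20, 56, 11, 10, 27, 9, 12, 13, 14, 15, 16, 17, 26, 18, 19,
  22, 54, 21, 20, 23, 25, 53, 16, 13, 14, 15, 21, 17, 18, 22, 19, 23, 49, 17, 14, 13, 22, 12, 15,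
  16, 23, 24, 6, 18, 19, 20, 50, 12, 9, 10, 6, 7, 37, 10, 13, 45, 7, 8, 11, 14, 21, 9, 12, 13,
  15, 20, 24, 56, 14, 15, 16, 19, 20, 11, 21, 24, 9, 55, 15, 16, 19, 20, 11, 21, 24, 9, 55, 10,
  11, 27, 9, 12, 13, 14, 15, 21, 20, 19, 22, 23, 8, 24, 25, 55, 16, 15, 19, 55, 27, 24, 17, 16,
  13, 19, 22, 14, 50, 6, 5, 8, 25, 13, 18, 15, 20, 23, 26, 9, 14, 19, 17, 45, 25, 11, 4, 10, 9,
  16, 15, 14, 36, 17, 14, 42, 12, 13, 14, 20, 15, 18, 21, 24, 7, 9, 19, 23, 51, 9, 12, 13, 11,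
  14, 26, 8, 20, 56, 14, 15, 22, 18, 17, 23, 21, 24, 54, 13, 12, 11, 14, 10, 22, 7, 15, 56, 14,
  15, 21, 47, 16, 25, 12, 15, 19, 24, 8, 20, 56, 7, 8, 25, 10, 27, 15, 20, 42, 11, 14, 27, 24,
  21, 17, 49, 25, 13, 18, 15, 20, 23, 14, 17, 10, 40, 13, 14, 25, 26, 15, 8, 20, 56, 16, 17, 20,
  10, 22, 8, 38, 14, 11, 12, 15, 18, 19, 25, 22, 21, 20, 37, 12, 10, 27, 20, 8, 38, 2, 27, 4, 11,
  8, 10, 12, 14, 16, 19, 22, 25, 17, 34, 19, 22, 25, 17, 34, 17, 16, 19, 36, 9, 16, 17, 21, 22,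
  25, 14, 44, 12, 9, 16, 19, 21, 14, 36, 14, 17, 16, 24, 23, 15, 22, 34, 21, 22, 19, 16, 23, 24,
  36, 9, 16, 15, 21, 20, 17, 43, 10, 12, 16, 17, 14, 19, 22, 34, 10, 9, 12, 16, 15, 14, 19, 17,
  21, 51, 16, 13, 6, 17, 21, 22, 15, 43, 9, 12, 14, 15, 17, 22, 34, 21, 22, 19, 55, 16, 21, 14,
  15, 7, 19, 51, 7, 6, 8, 10, 13, 25, 22, 23, 53, 11, 18, 17, 19, 12, 23, 49, 10, 13, 20, 17, 18,
  48, 9, 26, 14, 17, 18, 48, 3, 5, 9, 12, 15, 14, 17, 53, 26, 14, 15, 17, 19, 41, 6, 10, 13, 14,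
  12, 19, 18, 22, 24, 23, 20, 46, 15, 18, 22, 9, 25, 8, 20, 32, 13, 14, 26, 9, 3, 15, 18, 20, 22,
  5, 12, 23, 24, 8, 40, 3, 5, 9, 12, 15, 14, 17, 53, 26, 14, 13, 54, 7, 8, 11, 10, 14, 12, 9, 16,
  42, 19, 16, 22, 23, 20, 42, 9, 26, 14, 19, 12, 25, 18, 44, 10, 16, 13, 12, 20, 48, 6, 10, 13,
  14, 26, 25, 9, 8, 20, 32, 13, 14, 12, 19, 18, 22, 24, 23, 20, 46, 15, 18, 22, 9, 25, 8, 20, 32,
  9, 10, 26, 12, 19, 18, 22, 50, 11, 18, 15, 37, 16, 13, 12, 14, 23, 53, 5, 4, 8, 12, 11, 10, 13,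
  14, 20, 46, 13, 9, 21, 6, 14, 55, 15, 24, 11, 14, 18, 23, 7, 19, 55, 11, 12, 10, 13, 14, 21,
  17, 16, 22, 20, 23, 53, 13, 25, 7, 19, 55, 7, 24, 12, 17, 14, 19, 22, 25, 8, 13, 18, 16, 44,
  24, 10, 11, 12, 13, 19, 14, 17, 20, 23, 6, 8, 18, 22, 50, 3, 9, 8, 15, 14, 13, 35, 16, 13, 41,
  6, 12, 13, 24, 25, 14, 7, 19, 55, 15, 16, 19, 9, 21, 7, 37, 13, 10, 11, 14, 17, 18, 24, 21, 20,
  19, 36, 11, 9, 26, 19, 7, 37, 7, 24, 9, 26, 14, 19, 41, 10, 13, 26, 23, 20, 16, 48, 24, 12, 17,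
  14, 19, 22, 13, 16, 9, 39, 3, 4, 5, 8, 9, 15, 22, 12, 11, 10, 56, 22, 12, 11, 10, 13, 14, 16,
  17, 20, 56, 12, 15, 21, 51, 11, 12, 10, 13, 14, 15, 16, 22, 21, 20, 23, 24, 9, 25, 26, 56, 17,
  16, 20, 56, 11, 12, 9, 10, 6, 7, 37, 10, 13, 45, 10, 27, 9, 12, 13, 14, 15, 16, 17, 26, 18, 19,
  22, 54, 21, 20, 23, 25, 53, 16, 13, 14, 15, 21, 17, 18, 22, 19, 23, 49, 17, 14, 13, 22, 12, 15,
  16, 23, 24, 6, 18, 19, 20, 50, 7, 8, 11, 14, 21, 9, 12, 13, 15, 20, 24, 56, 14, 15, 16, 19, 20,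
  11, 21, 24, 9, 55, 15, 16, 19, 20, 11, 21, 24, 9, 55, 10, 11, 27, 9, 12, 13, 14, 15, 21, 20,
  19, 22, 23, 8, 24, 25, 55, 16, 15, 19, 55, 27, 24, 17, 16, 13, 19, 22, 14, 50, 6, 5, 8, 25, 13,
  18, 15, 20, 23, 26, 9, 14, 19, 17, 45, 25, 11, 4, 10, 9, 16, 15, 14, 36, 17, 14, 42, 12, 13,
  14, 20, 15, 18, 21, 24, 7, 9, 19, 23, 51, 9, 12, 13, 11, 14, 26, 8, 20, 56, 14, 15, 22, 18, 17,
  23, 21, 24, 54, 13, 12, 11, 14, 10, 22, 7, 15, 56, 14, 15, 21, 47, 16, 25, 12, 15, 19, 24, 8,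
  20, 56, 7, 8, 25, 10, 27, 15, 20, 42, 11, 14, 27, 24, 21, 17, 49, 25, 13, 18, 15, 20, 23, 14,
  17, 10, 40, 13, 14, 25, 26, 15, 8, 20, 56, 16, 17, 20, 10, 22, 8, 38, 14, 11, 12, 10, 27, 20,
  8, 38, 12, 15, 18, 19, 25, 22, 21, 20, 37]

lemma cert29_ok : (chk29 60 cert29 1 (1 <<< 28) 0 0).isSome = true := by
  decide +kernel

lemma nb29_lt : ∀ v : Fin 29, nb29 v.val < 2 ^ 29 := by decide +kernel

/-- the mask `m` only contains vertices of colour `k` -/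
def Cons (c : Fin 29 → Fin 4) (k : Fin 4) (m : ℕ) : Prop :=
  ∀ v : Fin 29, Nat.testBit m v.val = true → c v = k

lemma cons_free {c : Fin 29 → Fin 4} (hc : ∀ x y, C29.Adj x y → c x ≠ c y) {m : ℕ} (v : Fin 29)
    (hm : Cons c (c v) m) : m &&& nb29 v.val = 0 := by
  apply Nat.eq_of_testBit_eq
  intro i
  rw [Nat.testBit_land, Nat.zero_testBit]
  by_contra hcon
  rw [Bool.not_eq_false, Bool.and_eq_true] at hcon
  obtain ⟨h1, h2⟩ := hcon
  have hi : i < 29 := by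
    by_contra hge
    have h3 : nb29 v.val < 2 ^ i :=
      (nb29_lt v).trans_le (Nat.pow_le_pow_right (by norm_num) (by omega))
    rw [Nat.testBit_lt_two_pow h3] at h2
    exact absurd h2 (by simp)
  have h3 := nb29_spec v ⟨i, hi⟩
  rw [h2] at h3
  have h4 : C29.Adj v ⟨i, hi⟩ := of_decide_eq_true h3.symm
  exact hc _ _ h4 (hm ⟨i, hi⟩ h1).symm

lemma cons_step {c : Fin 29 → Fin 4} {m : ℕ} (v : Fin 29) (k : Fin 4) (hk : c v = k)
    (hm : Cons c k m) : Cons c k (m ||| 1 <<< v.val) := by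
  intro u hu
  rw [Nat.testBit_lor, Bool.or_eq_true] at hu
  rcases hu with hu | hu
  · exact hm u hu
  · have : u = v := by
      rw [Nat.one_shiftLeft, Nat.testBit_two_pow] at hu
      exact Fin.ext (of_decide_eq_true hu).symm
    rw [this]; exact hk

lemma chk_sound {c : Fin 29 → Fin 4} (hc : ∀ x y, C29.Adj x y → c x ≠ c y) :
    ∀ (k : ℕ) (l : List ℕ) (m0 m1 m2 m3 : ℕ), Cons c 0 m0 → Cons c 1 m1 → Cons c 2 m2 →
      Cons c 3 m3 → ∀ l', chk29 k l m0 m1 m2 m3 = some l' → False := by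
  intro k
  induction k with
  | zero => intro l m0 m1 m2 m3 _ _ _ _ l' h; simp [chk29] at h
  | succ k ih =>
    intro l m0 m1 m2 m3 h0 h1 h2 h3 l' h
    cases l with
    | nil => simp [chk29] at h
    | cons a l =>
      rw [chk29] at h
      by_cases ha : a < 29
      · rw [if_pos ha] at h
        let v : Fin 29 := ⟨a, ha⟩
        simp only at h
        have hv : v.val = a := rfl
        have hcv : c v = 0 ∨ c v = 1 ∨ c v = 2 ∨ c v = 3 := by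
          generalize c v = t
          revert t
          decide
        split at h
        · simp at h
        · rename_i l1 e1
          split at h
          · simp at h
          · rename_i l2 e2
            split at h
            · simp at h
            · rename_i l3 e3
              rcases hcv with e | e | e | e
              · have hf := cons_free hc v (m := m0) (by rw [e]; exact h0)
                rw [hv] at hf
                rw [if_pos hf] at e1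
                exact ih _ _ _ _ _ (by simpa using cons_step v 0 e h0) h1 h2 h3 _ e1
              · have hf := cons_free hc v (m := m1) (by rw [e]; exact h1)
                rw [hv] at hf
                rw [if_pos hf] at e2
                exact ih _ _ _ _ _ h0 (by simpa using cons_step v 1 e h1) h2 h3 _ e2
              · have hf := cons_free hc v (m := m2) (by rw [e]; exact h2)
                rw [hv] at hf
                rw [if_pos hf] at e3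
                exact ih _ _ _ _ _ h0 h1 (by simpa using cons_step v 2 e h2) h3 _ e3
              · have hf := cons_free hc v (m := m3) (by rw [e]; exact h3)
                rw [hv] at hf
                rw [if_pos hf] at h
                exact ih _ _ _ _ _ h0 h1 h2 (by simpa using cons_step v 3 e h3) _ h
      · rw [if_neg ha] at h
        simp only at h
        split at h
        · rename_i hcond
          obtain ⟨g, g0, g1, g2, g3⟩ := hcond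
          let v : Fin 29 := ⟨a - 29, g⟩
          have hv : v.val = a - 29 := rfl
          have hcv : c v = 0 ∨ c v = 1 ∨ c v = 2 ∨ c v = 3 := by
            generalize c v = t
            revert t
            decide
          rcases hcv with e | e | e | e
          · exact g0 (cons_free hc v (by rw [e]; exact h0))
          · exact g1 (cons_free hc v (by rw [e]; exact h1))
          · exact g2 (cons_free hc v (by rw [e]; exact h2))
          · exact g3 (cons_free hc v (by rw [e]; exact h3))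
        · simp at h

/-- two distinct colours can be moved to `0` and `1` -/
lemma exists_perm : ∀ a b : Fin 4, a ≠ b → ∃ σ : Equiv.Perm (Fin 4), σ a = 0 ∧ σ b = 1 := by
  intro a b hab
  refine ⟨(Equiv.swap (Equiv.swap a 0 b) 1) * (Equiv.swap a 0), ?_, ?_⟩
  · rw [Equiv.Perm.mul_apply, Equiv.swap_apply_left]
    apply Equiv.swap_apply_of_ne_of_ne
    · intro h
      have : Equiv.swap a 0 a = Equiv.swap a 0 b := by rw [Equiv.swap_apply_left]; exact h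
      exact hab ((Equiv.swap a 0).injective this)
    · decide
  · rw [Equiv.Perm.mul_apply, Equiv.swap_apply_left]

theorem C29_not_four : IsEmpty (C29 →g (⊤ : SimpleGraph (Fin 4))) := by
  constructor
  intro φ
  have hadj : C29.Adj 0 28 := by decide
  have hne : φ 0 ≠ φ 28 := φ.map_adj hadj
  obtain ⟨σ, h0, h1⟩ := exists_perm _ _ hne
  have hc : ∀ x y, C29.Adj x y → σ (φ x) ≠ σ (φ y) := by
    intro x y hxy h
    exact (φ.map_adj hxy : φ x ≠ φ y) (σ.injective h)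
  obtain ⟨l', hl'⟩ := Option.isSome_iff_exists.mp cert29_ok
  refine chk_sound (c := fun x => σ (φ x)) hc 60 cert29 1 (1 <<< 28) 0 0 ?_ ?_ ?_ ?_ l' hl'
  · intro v hv
    have : ∀ v : Fin 29, Nat.testBit 1 v.val = true → v = 0 := by decide
    rw [this v hv]; exact h0
  · intro v hv
    have : ∀ v : Fin 29, Nat.testBit (1 <<< 28) v.val = true → v = 28 := by decide
    rw [this v hv]; exact h1
  · intro v hv
    simp at hv
  · intro v hv
    simp at hv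

theorem C29_no_tri : IsEmpty ((⊤ : SimpleGraph (Fin 3)) →g C29) := by
  constructor
  intro φ
  have h01 : C29.Adj (φ 0) (φ 1) := φ.map_adj (by decide : (0 : Fin 3) ≠ 1)
  have h12 : C29.Adj (φ 1) (φ 2) := φ.map_adj (by decide : (1 : Fin 3) ≠ 2)
  have h02 : C29.Adj (φ 0) (φ 2) := φ.map_adj (by decide : (0 : Fin 3) ≠ 2)
  have h : ∀ a b, C29.Adj a b → ∀ c, C29.Adj b c → ¬ C29.Adj a c := by decide +kernel
  exact h _ _ h01 _ h12 h02

theorem C29_deg (v : Fin 29) : (C29.neighborSet v).ncard ≤ 8 := by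
  classical
  have h : ∀ v : Fin 29, (Finset.univ.filter (fun u => C29.Adj v u)).card ≤ 8 := by decide +kernel
  have e : C29.neighborSet v = ((Finset.univ.filter (fun u => C29.Adj v u) : Finset (Fin 29)) : Set (Fin 29)) := by
    ext u; simp
  rw [e, Set.ncard_coe_finset]
  exact h v

end Pool.Agent.MP1d59
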