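import Pool.Agent.Lib.MP_1d59ee_co.GP

/-!
Quadrangulations of the Klein bottle: four-regular graphs of large odd girth that have no
homomorphism to the triangle.
-/

set_option autoImplicit false

namespace Pool.Agent.MP1d59

open SimpleGraph Finset

inductive KRel (n h : ℕ) : ZMod n × ℕ → ZMod n × ℕ → Prop
  | a (i : ZMod n) (j : ℕ) : j < h → KRel n h (i, j) (i + 1, j)
  | b (i : ZMod n) (j : ℕ) : j + 1 < h → KRel n h (i, j) (i, j + 1)
  | c (i : ZMod n) (j : ℕ) : j + 1 = h → KRel n h (i, j) (-i, 0)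

def KH (n h : ℕ) : SimpleGraph (ZMod n × ℕ) := SimpleGraph.fromRel (KRel n h)

lemma KH_adj {n h : ℕ} {x y : ZMod n × ℕ} (hxy : (KH n h).Adj x y) :
    KRel n h x y ∨ KRel n h y x := by
  unfold KH at hxy
  rw [fromRel_adj] at hxy
  exact hxy.2

lemma KH_adj_of {n h : ℕ} (hn : 2 ≤ n) (hh : 2 ≤ h) {x y : ZMod n × ℕ} (hr : KRel n h x y) :
    (KH n h).Adj x y := by
  unfold KH
  rw [fromRel_adj]
  refine ⟨?_, Or.inl hr⟩
  haveI : Fact (1 < n) := ⟨by omega⟩
  cases hr with
  | a i j h1 =>
    intro e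
    have := congrArg Prod.fst e
    simp at this
  | b i j h1 =>
    intro e
    have := congrArg Prod.snd e
    simp at this
  | c i j h1 =>
    intro e
    have := congrArg Prod.snd e
    simp at this
    omega

lemma nbr4 {n h : ℕ} (x : ZMod n × ℕ) : ∃ A B C D : ZMod n × ℕ,
    ∀ y, (KH n h).Adj x y → y = A ∨ y = B ∨ y = C ∨ y = D := by
  obtain ⟨i, j⟩ := x
  refine ⟨(i + 1, j), (i - 1, j), if j + 1 = h then (-i, 0) else (i, j + 1),
    if j = 0 then (-i, h - 1) else (i, j - 1), ?_⟩
  intro y hy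
  rcases KH_adj hy with hy | hy
  · cases hy with
    | a _ _ h1 => left; rfl
    | b _ _ h1 => right; right; left; rw [if_neg (by omega)]
    | c _ _ h1 => right; right; left; rw [if_pos h1]
  · cases hy with
    | a _ _ h1 => right; left; simp
    | b _ _ h1 => right; right; right; rw [if_neg (by omega)]; simp
    | c _ _ h1 =>
      right; right; right
      rw [if_pos rfl, neg_neg]
      congr 1
      omega

def KW (n h : ℕ) : Set (ZMod n × ℕ) := {x | x.2 < h}

lemma KW_finite (n h : ℕ) [NeZero n] : (KW n h).Finite := by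
  have : KW n h ⊆ (Set.univ : Set (ZMod n)) ×ˢ (Set.Iio h) := by
    intro x hx
    exact ⟨Set.mem_univ _, hx⟩
  exact (Set.finite_univ.prod (Set.finite_Iio h)).subset this

def KG (n h : ℕ) : SimpleGraph (KW n h) := (KH n h).induce (KW n h)

lemma KG_deg {n h : ℕ} (x : KW n h) : ((KG n h).neighborSet x).ncard ≤ 4 := by
  obtain ⟨A, B, C, D, hABC⟩ := nbr4 (n := n) (h := h) x.1
  have h1 : Subtype.val '' ((KG n h).neighborSet x) ⊆ ({A, B, C, D} : Set (ZMod n × ℕ)) := by
    rintro _ ⟨y, hy, rfl⟩
    have hy' : (KH n h).Adj x.1 y.1 := hy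
    simpa using hABC y.1 hy'
  have h2 := Set.ncard_le_ncard h1 (Set.toFinite _)
  rw [Set.ncard_image_of_injective _ Subtype.val_injective] at h2
  refine h2.trans ?_
  refine (Set.ncard_insert_le _ _).trans ?_
  have := Set.ncard_insert_le B {C, D}
  have := Set.ncard_insert_le C {D}
  rw [Set.ncard_singleton] at this
  omega

lemma KG_no_hom {n h : ℕ} (hn : 2 ≤ n) (hno : Odd n) (hh : 2 ≤ h) {T : Type*} {X : SimpleGraph T}
    {w : T → T → ℤ} (hw : OddWt X w) : IsEmpty (KG n h →g X) := by
  constructor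
  intro φ
  haveI : NeZero n := ⟨by omega⟩
  classical
  let z : KW n h := ⟨(0, 0), by show 0 < h; omega⟩
  let ψ : ZMod n → ℕ → T := fun i j => if hx : ((i, j) : ZMod n × ℕ) ∈ KW n h then φ ⟨_, hx⟩ else φ z
  have hψ : ∀ i j i' j', j < h → j' < h → KRel n h (i, j) (i', j') → X.Adj (ψ i j) (ψ i' j') := by
    intro i j i' j' hj hj' hr
    have m1 : ((i, j) : ZMod n × ℕ) ∈ KW n h := hj
    have m2 : ((i', j') : ZMod n × ℕ) ∈ KW n h := hj'
    simp only [ψ, dif_pos m1, dif_pos m2]
    exact φ.map_adj (KH_adj_of hn hh hr)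
  let S : ℕ → ℤ := fun j => ∑ i : ZMod n, w (ψ i j) (ψ (i + 1) j)
  have shift : ∀ f : ZMod n → ℤ, ∑ i : ZMod n, f (i + 1) = ∑ i : ZMod n, f i := fun f =>
    Equiv.sum_comp (Equiv.addRight (1 : ZMod n)) f
  have hstep : ∀ j, j + 1 < h → S j = S (j + 1) := by
    intro j hj
    have key : ∀ i : ZMod n, w (ψ i j) (ψ (i + 1) j)
        = w (ψ i (j + 1)) (ψ (i + 1) (j + 1))
          - (w (ψ (i + 1) j) (ψ (i + 1) (j + 1)) - w (ψ i j) (ψ i (j + 1))) := by
      intro i
      have a1 := hψ i j (i + 1) j (by omega) (by omega) (KRel.a i j (by omega))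
      have a2 := hψ (i + 1) j (i + 1) (j + 1) (by omega) hj (KRel.b (i + 1) j hj)
      have a3 := hψ i (j + 1) (i + 1) (j + 1) hj hj (KRel.a i (j + 1) hj)
      have a4 := hψ i j i (j + 1) (by omega) hj (KRel.b i j hj)
      have s := hw.four a1 a2 a3.symm a4.symm
      have t3 := hw.anti a3
      have t4 := hw.anti a4
      linarith
    simp only [S]
    rw [Finset.sum_congr rfl (fun i _ => key i), sum_sub_distrib, sum_sub_distrib,
      shift (fun i => w (ψ i j) (ψ i (j + 1)))]
    ring
  have hall : ∀ j, j < h → S j = S 0 := by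
    intro j
    induction j with
    | zero => intro _; rfl
    | succ j ih => intro hj; rw [← hstep j hj]; exact ih (by omega)
  obtain ⟨r, rfl⟩ : ∃ r, h = r + 1 := ⟨h - 1, by omega⟩
  have hseam : S r + S 0 = 0 := by
    have key : ∀ i : ZMod n, w (ψ i r) (ψ (i + 1) r)
        = - w (ψ (-(i + 1)) 0) (ψ (-(i + 1) + 1) 0)
          - (w (ψ (i + 1) r) (ψ (-(i + 1)) 0) - w (ψ i r) (ψ (-i) 0)) := by
      intro i
      have a1 := hψ i r (i + 1) r (by omega) (by omega) (KRel.a i r (by omega))
      have a2 := hψ (i + 1) r (-(i + 1)) 0 (by omega) (by omega) (KRel.c (i + 1) r rfl)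
      have a3 := hψ (-(i + 1)) 0 (-(i + 1) + 1) 0 (by omega) (by omega)
        (KRel.a (-(i + 1)) 0 (by omega))
      have a4 := hψ i r (-i) 0 (by omega) (by omega) (KRel.c i r rfl)
      have e : -(i + 1) + 1 = -i := by ring
      rw [e] at a3 ⊢
      have s := hw.four a1 a2 a3 a4.symm
      have t4 := hw.anti a4
      linarith
    have e0 : ∑ i : ZMod n, w (ψ (-(i + 1)) 0) (ψ (-(i + 1) + 1) 0) = S 0 := by
      rw [shift (fun i => w (ψ (-i) 0) (ψ (-i + 1) 0))]
      exact Equiv.sum_comp (Equiv.neg (ZMod n)) (fun i => w (ψ i 0) (ψ (i + 1) 0))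
    have e1 : S r = - S 0 := by
      have : S r = ∑ i : ZMod n, w (ψ i r) (ψ (i + 1) r) := rfl
      rw [this, Finset.sum_congr rfl (fun i _ => key i), sum_sub_distrib, sum_neg_distrib, e0,
        sum_sub_distrib, shift (fun i => w (ψ i r) (ψ (-i) 0))]
      ring
    rw [e1]; ring
  have h1 := hall r (by omega)
  have h2 : S 0 = 0 := by omega
  have h3 : Odd (S 0) := by
    have : ∀ i ∈ (Finset.univ : Finset (ZMod n)), Odd (w (ψ i 0) (ψ (i + 1) 0)) := fun i _ =>
      hw.odd (hψ i 0 (i + 1) 0 (by omega) (by omega) (KRel.a i 0 (by omega)))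
    have hm : ∀ s : Finset (ZMod n), (∀ i ∈ s, Odd (w (ψ i 0) (ψ (i + 1) 0))) →
        (Odd (∑ i ∈ s, w (ψ i 0) (ψ (i + 1) 0)) ↔ Odd s.card) := by
      intro s
      induction s using Finset.induction_on with
      | empty => intro _; simp
      | insert a s ha ih =>
        intro hs
        rw [sum_insert ha, card_insert_of_notMem ha, Int.odd_add, Nat.odd_add_one, ← Int.not_odd_iff_even,
          ih (fun i hi => hs i (mem_insert_of_mem hi))]
        have := hs a (mem_insert_self a s)
        tauto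
    rw [show S 0 = ∑ i ∈ Finset.univ, w (ψ i 0) (ψ (i + 1) 0) from rfl, hm _ this, Finset.card_univ,
      ZMod.card]
    exact hno
  rw [h2] at h3
  exact absurd h3 (by decide)

/-! ### Odd closed walks are long -/

/-- lifted state -/
def St (n h : ℕ) (i0 : ZMod n) (j0 : ℕ) (l : ℕ) (y : ZMod n × ℕ) : Prop :=
  ∃ s m A B : ℤ, (s = 1 ∧ Even m ∨ s = -1 ∧ Odd m) ∧ y.1 = (s : ZMod n) * (i0 + (A : ZMod n)) ∧
    (y.2 : ℤ) = j0 + B - h * m ∧ |A| + |B| ≤ l ∧ Even (A + B - l)

lemma St.step {n h : ℕ} {i0 : ZMod n} {j0 l : ℕ} {x y : ZMod n × ℕ} (hx : St n h i0 j0 l x)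
    (hxy : (KH n h).Adj x y) : St n h i0 j0 (l + 1) y := by
  obtain ⟨s, m, A, B, hs, h1, h2, h3, h4⟩ := hx
  have ss : (s : ZMod n) * s = 1 := by
    rcases hs with ⟨rfl, _⟩ | ⟨rfl, _⟩ <;> simp
  have hs2 : |s| = 1 ∧ Odd s := by
    rcases hs with ⟨rfl, _⟩ | ⟨rfl, _⟩ <;> decide
  rcases KH_adj hxy with hr | hr
  · cases hr with
    | a i j hj =>
      refine ⟨s, m, A + s, B, hs, ?_, h2, ?_, ?_⟩
      · simp only at h1 ⊢
        push_cast
        rw [h1]
        linear_combination (-1 : ZMod n) * ss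
      · have := abs_add_le A s
        push_cast
        omega
      · push_cast
        obtain ⟨k, hk⟩ := h4
        obtain ⟨t, ht⟩ := hs2.2
        exact ⟨k + t, by omega⟩
    | b i j hj =>
      refine ⟨s, m, A, B + 1, hs, h1, ?_, ?_, ?_⟩
      · simp only at h2 ⊢
        push_cast
        omega
      · have := abs_add_le B 1
        push_cast
        simp only [abs_one] at this
        omega
      · push_cast
        obtain ⟨k, hk⟩ := h4
        exact ⟨k, by omega⟩
    | c i j hj =>
      refine ⟨-s, m + 1, A, B + 1, ?_, ?_, ?_, ?_, ?_⟩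
      · rcases hs with ⟨rfl, hm⟩ | ⟨rfl, hm⟩
        · right; exact ⟨rfl, hm.add_one⟩
        · left; exact ⟨rfl, hm.add_one⟩
      · simp only at h1 ⊢
        push_cast
        rw [h1]
        ring
      · simp only at h2 ⊢
        have : (h : ℤ) = j + 1 := by exact_mod_cast hj.symm
        rw [mul_add, this] 
        rw [this] at h2
        push_cast
        linarith
      · have := abs_add_le B 1
        push_cast
        simp only [abs_one] at this
        omega
      · push_cast
        obtain ⟨k, hk⟩ := h4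
        exact ⟨k, by omega⟩
  · cases hr with
    | a i j hj =>
      refine ⟨s, m, A - s, B, hs, ?_, h2, ?_, ?_⟩
      · simp only at h1 ⊢
        push_cast
        linear_combination h1 + ss
      · have := abs_sub A s
        push_cast
        omega
      · push_cast
        obtain ⟨k, hk⟩ := h4
        obtain ⟨t, ht⟩ := hs2.2
        exact ⟨k - t - 1, by omega⟩
    | b i j hj =>
      refine ⟨s, m, A, B - 1, hs, h1, ?_, ?_, ?_⟩
      · simp only at h2 ⊢
        push_cast at h2
        omega
      · have := abs_sub B 1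
        push_cast
        simp only [abs_one] at this
        omega
      · push_cast
        obtain ⟨k, hk⟩ := h4
        exact ⟨k - 1, by omega⟩
    | c i j hj =>
      refine ⟨-s, m - 1, A, B - 1, ?_, ?_, ?_, ?_, ?_⟩
      · rcases hs with ⟨rfl, hm⟩ | ⟨rfl, hm⟩
        · right; exact ⟨rfl, hm.sub_odd odd_one⟩
        · left; exact ⟨rfl, hm.sub_odd odd_one⟩
      · simp only at h1 ⊢
        push_cast
        linear_combination (-1 : ZMod n) * h1
      · simp only at h2 ⊢
        have : (h : ℤ) = j + 1 := by exact_mod_cast hj.symm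
        rw [mul_sub, this]
        rw [this] at h2
        push_cast at h2 ⊢
        linarith
      · have := abs_sub B 1
        push_cast
        simp only [abs_one] at this
        omega
      · push_cast
        obtain ⟨k, hk⟩ := h4
        exact ⟨k - 1, by omega⟩

lemma St.walk {n h : ℕ} {i0 : ZMod n} {j0 : ℕ} {x y : ZMod n × ℕ} (p : (KH n h).Walk x y) :
    ∀ l, St n h i0 j0 l x → St n h i0 j0 (l + p.length) y := by
  induction p with
  | nil => intro l hl; exact hl
  | cons hxy q ih =>
    intro l hl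
    have := ih (l + 1) (hl.step hxy)
    rw [Walk.length_cons]
    have e : l + (q.length + 1) = l + 1 + q.length := by ring
    rw [e]
    exact this

lemma KH_odd {n h : ℕ} {x : ZMod n × ℕ} (p : (KH n h).Walk x x)
    (ho : Odd p.length) (h1 : p.length < h) (h2 : p.length < n) : False := by
  have h0 : St n h x.1 x.2 0 x := ⟨1, 0, 0, 0, Or.inl ⟨rfl, by decide⟩, by simp, by simp, by simp,
    by simp⟩
  obtain ⟨s, m, A, B, hs, e1, e2, e3, e4⟩ := St.walk p 0 h0
  rw [zero_add] at e3 e4
  have hB : B = h * m := by omega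
  have hA0 := abs_nonneg A
  have hB0 := abs_nonneg B
  have hBh : |B| < h := by
    have : (p.length : ℤ) < h := by exact_mod_cast h1
    omega
  have hm : m = 0 := by
    by_contra hne
    have : (1 : ℤ) ≤ |m| := Int.one_le_abs hne
    rw [hB, abs_mul] at hBh
    have h3 : |(h : ℤ)| = h := abs_of_nonneg (by positivity)
    rw [h3] at hBh
    nlinarith
  subst hm
  have hB' : B = 0 := by rw [hB]; ring
  subst hB'
  have hs1 : s = 1 := by
    rcases hs with ⟨h, _⟩ | ⟨_, h⟩
    · exact h
    · exact absurd h (by decide)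
  subst hs1
  have hA : ((A : ℤ) : ZMod n) = 0 := by
    have h5 : x.1 + ((A : ℤ) : ZMod n) = x.1 + 0 := by
      rw [add_zero]
      conv_rhs => rw [e1]
      push_cast
      ring
    exact add_left_cancel h5
  have hn : (p.length : ℤ) < n := by exact_mod_cast h2
  simp only [abs_zero, add_zero] at e3
  have hA' : A = 0 := by
    apply small_zero hA
    · have := le_abs_self A; omega
    · have := neg_abs_le A; omega
  subst hA'
  rw [add_zero, zero_sub, even_neg] at e4
  have e5 : Even p.length := by exact_mod_cast e4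
  exact (Nat.not_even_iff_odd.mpr ho) e5

def inclK (n h : ℕ) : KG n h →g KH n h := ⟨Subtype.val, fun {_ _} hab => hab⟩

lemma KG_odd {n h : ℕ} {x : KW n h} (p : (KG n h).Walk x x)
    (ho : Odd p.length) (h1 : p.length < h) (h2 : p.length < n) : False := by
  refine KH_odd (p.map (inclK n h)) ?_ ?_ ?_ <;> rw [Walk.length_map] <;> assumption

end Pool.Agent.MP1d59
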