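import Pool.Agent.Lib.MP_1d59ee_co.Stokes

/-!
The cubic hexagonal projective graph `PH h`.
-/

set_option autoImplicit false

namespace Pool.Agent.MP1d59

open SimpleGraph

/-- points: sector, layer, position, and a flag for the second kind of point -/
abbrev Pt : Type := Fin 4 × ℕ × ℕ × Bool

inductive PRel (h : ℕ) : Pt → Pt → Prop
  | a (q : Fin 4) (r j : ℕ) : r + 1 < h → j ≤ r → PRel h (q, r, j, true) (q, r, j, false)
  | b (q : Fin 4) (r j : ℕ) : r + 1 < h → j ≤ r → PRel h (q, r, j, true) (q, r + 1, j, false)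
  | c (q : Fin 4) (r j : ℕ) : r + 1 < h → j ≤ r → PRel h (q, r, j, true) (q, r + 1, j + 1, false)
  | d (q : Fin 4) (r : ℕ) : r < h → PRel h (q, r, r, false) (q + 1, r, 0, false)
  | e (q : Fin 4) (r j : ℕ) : r + 1 = h → j ≤ r → PRel h (q, r, j, false) (q + 2, r, j, false)

/-- the hexagonal projective graph on all points -/
def PH (h : ℕ) : SimpleGraph Pt := SimpleGraph.fromRel (PRel h)

lemma PRel.ne {h : ℕ} {x y : Pt} (hr : PRel h x y) : x ≠ y := by
  cases hr with
  | a => simp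
  | b => simp
  | c => simp
  | d q r =>
    intro e
    have h4 : ∀ q : Fin 4, q ≠ q + 1 := by decide
    exact h4 q (congrArg Prod.fst e)
  | e q r =>
    intro e
    have h4 : ∀ q : Fin 4, q ≠ q + 2 := by decide
    exact h4 q (congrArg Prod.fst e)

lemma PH_adj_of {h : ℕ} {x y : Pt} (hr : PRel h x y) : (PH h).Adj x y := by
  unfold PH
  rw [fromRel_adj]
  exact ⟨hr.ne, Or.inl hr⟩

lemma PH_adj {h : ℕ} {x y : Pt} (hxy : (PH h).Adj x y) : PRel h x y ∨ PRel h y x := by
  unfold PH at hxy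
  rw [fromRel_adj] at hxy
  exact hxy.2

lemma nbr3 {h : ℕ} (x : Pt) : ∃ A B C : Pt, ∀ y, (PH h).Adj x y → y = A ∨ y = B ∨ y = C := by
  obtain ⟨q, r, j, f⟩ := x
  cases f
  · refine ⟨if j = r then (q + 1, r, 0, false) else (q, r - 1, j, true),
      if j = 0 then (q + 3, r, r, false) else (q, r - 1, j - 1, true),
      if r + 1 = h then (q + 2, r, j, false) else (q, r, j, true), ?_⟩
    intro y hy
    rcases PH_adj hy with hy | hy
    · cases hy with
      | d _ _ h1 => left; simp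
      | e _ _ _ h1 h2 => right; right; rw [if_pos h1]
    · cases hy with
      | a _ _ _ h1 h2 => right; right; rw [if_neg (by omega)]
      | b _ _ _ h1 h2 =>
        left
        rw [if_neg (by omega)]
        simp
      | c _ _ _ h1 h2 =>
        right; left
        rw [if_neg (by omega)]
        simp
      | d q _ h1 =>
        right; left
        rw [if_pos rfl]
        congr 1
        rw [add_assoc]
        have : (1 : Fin 4) + 3 = 0 := rfl
        rw [this, add_zero]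
      | e q _ _ h1 h2 =>
        right; right
        rw [if_pos h1]
        congr 1
        rw [add_assoc]
        have : (2 : Fin 4) + 2 = 0 := rfl
        rw [this, add_zero]
  · refine ⟨(q, r, j, false), (q, r + 1, j, false), (q, r + 1, j + 1, false), ?_⟩
    intro y hy
    rcases PH_adj hy with hy | hy
    · cases hy with
      | a _ _ _ h1 h2 => left; rfl
      | b _ _ _ h1 h2 => right; left; rfl
      | c _ _ _ h1 h2 => right; right; rfl
    · cases hy

/-! ### The finite graph -/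

/-- the finite vertex set -/
def PW (h : ℕ) : Set Pt := {x | x.2.1 < h ∧ x.2.2.1 < h}

lemma PW_finite (h : ℕ) : (PW h).Finite := by
  have : PW h ⊆ (Set.univ : Set (Fin 4)) ×ˢ (Set.Iio h ×ˢ (Set.Iio h ×ˢ (Set.univ : Set Bool))) := by
    intro x hx
    exact ⟨Set.mem_univ _, hx.1, hx.2, Set.mem_univ _⟩
  exact (Set.finite_univ.prod ((Set.finite_Iio h).prod
    ((Set.finite_Iio h).prod Set.finite_univ))).subset this

/-- the finite hexagonal projective graph -/
def PG (h : ℕ) : SimpleGraph (PW h) := (PH h).induce (PW h)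

lemma PG_deg {h : ℕ} (x : PW h) : ((PG h).neighborSet x).ncard ≤ 3 := by
  obtain ⟨A, B, C, hABC⟩ := nbr3 (h := h) x.1
  have h1 : Subtype.val '' ((PG h).neighborSet x) ⊆ ({A, B, C} : Set Pt) := by
    rintro _ ⟨y, hy, rfl⟩
    have hy' : (PH h).Adj x.1 y.1 := hy
    simpa using hABC y.1 hy'
  have h2 := Set.ncard_le_ncard h1 (Set.toFinite _)
  rw [Set.ncard_image_of_injective _ Subtype.val_injective] at h2
  refine h2.trans ?_
  refine (Set.ncard_insert_le _ _).trans ?_
  have := Set.ncard_insert_le B {C}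
  rw [Set.ncard_singleton] at this
  omega

/-- A homomorphism of the finite graph gives a configuration. -/
lemma conf_of_hom {h : ℕ} (hh : 0 < h) {T : Type*} {X : SimpleGraph T} (φ : PG h →g X) :
    ∃ L U : Fin 4 → ℕ → ℕ → T, Conf X h L U := by
  classical
  let z : PW h := ⟨(0, 0, 0, false), hh, hh⟩
  let ψ : Pt → T := fun x => if hx : x ∈ PW h then φ ⟨x, hx⟩ else φ z
  have hψ : ∀ x y, x ∈ PW h → y ∈ PW h → PRel h x y → X.Adj (ψ x) (ψ y) := by
    intro x y hx hy hr
    simp only [ψ, dif_pos hx, dif_pos hy]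
    exact φ.map_adj (PH_adj_of hr)
  refine ⟨fun q r j => ψ (q, r, j, false), fun q r j => ψ (q, r, j, true), ?_, ?_, ?_, ?_, ?_⟩
  · intro q r j h1 h2
    exact (hψ _ _ ⟨by simp; omega, by simp; omega⟩ ⟨by simp; omega, by simp; omega⟩
      (PRel.a q r j h1 h2)).symm
  · intro q r j h1 h2
    exact (hψ _ _ ⟨by simp; omega, by simp; omega⟩ ⟨by simp; omega, by simp; omega⟩
      (PRel.b q r j h1 h2)).symm
  · intro q r j h1 h2
    exact hψ _ _ ⟨by simp; omega, by simp; omega⟩ ⟨by simp; omega, by simp; omega⟩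
      (PRel.c q r j h1 h2)
  · intro q r h1
    exact hψ _ _ ⟨by simp; omega, by simp; omega⟩ ⟨by simp; omega, by simp; omega⟩
      (PRel.d q r h1)
  · intro q r j h1 h2
    exact hψ _ _ ⟨by simp; omega, by simp; omega⟩ ⟨by simp; omega, by simp; omega⟩
      (PRel.e q r j h1 h2)

lemma PG_no_hom {h : ℕ} (hh : 0 < h) {T : Type*} {X : SimpleGraph T} {w : T → T → ℤ}
    (hw : OddWt X w) (h6 : Six X w) : IsEmpty (PG h →g X) := by
  constructor
  intro φ
  obtain ⟨L, U, C⟩ := conf_of_hom hh φ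
  exact no_conf hw h6 hh C

/-! ### Odd closed walks are long -/

lemma walk_bd {V : Type*} {G : SimpleGraph V} (f : V → ℤ)
    (hf : ∀ x y, G.Adj x y → |f x + f y| ≤ 2) {x y : V} (p : G.Walk x y) :
    |f y - (-1) ^ p.length * f x| ≤ 2 * p.length := by
  induction p with
  | nil => simp
  | @cons u v t huv q ih =>
    simp only [Walk.length_cons]
    have h1 := hf u v huv
    have h2 : f t - (-1) ^ (q.length + 1) * f u
        = (f t - (-1) ^ q.length * f v) + (-1) ^ q.length * (f u + f v) := by ring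
    rw [h2]
    calc |f t - (-1) ^ q.length * f v + (-1) ^ q.length * (f u + f v)|
        ≤ |f t - (-1) ^ q.length * f v| + |(-1) ^ q.length * (f u + f v)| := abs_add_le _ _
      _ ≤ 2 * q.length + 2 := by
          rw [abs_mul, abs_pow, abs_neg, abs_one, one_pow, one_mul]
          exact add_le_add ih h1
      _ = 2 * ((q.length + 1 : ℕ) : ℤ) := by push_cast; ring

lemma odd_walk_bd {V : Type*} {G : SimpleGraph V} (f : V → ℤ)
    (hf : ∀ x y, G.Adj x y → |f x + f y| ≤ 2) {x : V} (p : G.Walk x x) (ho : Odd p.length) :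
    |f x| ≤ p.length := by
  have h := walk_bd f hf p
  rw [ho.neg_one_pow] at h
  have : f x - -1 * f x = 2 * f x := by ring
  rw [this, abs_mul, abs_two] at h
  linarith

/-- signed position vector -/
def rot : Fin 4 → ℤ → ℤ → ℤ → ℤ × ℤ × ℤ
  | 0, a, b, c => (a, b, c)
  | 1, a, b, c => (b, -a, -c)
  | 2, a, b, c => (-a, -b, c)
  | 3, a, b, c => (-b, a, -c)

def vec (h : ℕ) : Pt → ℤ × ℤ × ℤ
  | (q, r, j, false) => rot q (3 * (r - j) + 1) (3 * j + 1) (3 * (h - r) - 2)
  | (q, r, j, true) => rot q (-(3 * (r - j) + 2)) (-(3 * j + 2)) (-(3 * (h - r) - 4))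

lemma vec_rel {h : ℕ} {x y : Pt} (hr : PRel h x y) :
    |(vec h x).1 + (vec h y).1| ≤ 2 ∧ |(vec h x).2.1 + (vec h y).2.1| ≤ 2 ∧
      |(vec h x).2.2 + (vec h y).2.2| ≤ 2 := by
  simp only [abs_le]
  cases hr with
  | a q r j h1 h2 =>
    fin_cases q <;> simp only [vec, rot] <;> refine ⟨⟨?_, ?_⟩, ⟨?_, ?_⟩, ⟨?_, ?_⟩⟩ <;> push_cast <;> omega
  | b q r j h1 h2 =>
    fin_cases q <;> simp only [vec, rot] <;> refine ⟨⟨?_, ?_⟩, ⟨?_, ?_⟩, ⟨?_, ?_⟩⟩ <;> push_cast <;> omega
  | c q r j h1 h2 =>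
    fin_cases q <;> simp only [vec, rot] <;> refine ⟨⟨?_, ?_⟩, ⟨?_, ?_⟩, ⟨?_, ?_⟩⟩ <;> push_cast <;> omega
  | d q r h1 =>
    have f1 : (0 : Fin 4) + 1 = 1 := rfl
    have f2 : (1 : Fin 4) + 1 = 2 := rfl
    have f3 : (2 : Fin 4) + 1 = 3 := rfl
    have f4 : (3 : Fin 4) + 1 = 0 := rfl
    fin_cases q <;> simp only [Fin.zero_eta, Fin.mk_one, Fin.reduceFinMk, f1, f2, f3, f4] <;>
      simp only [vec, rot] <;> refine ⟨⟨?_, ?_⟩, ⟨?_, ?_⟩, ⟨?_, ?_⟩⟩ <;> push_cast <;> omega
  | e q r j h1 h2 =>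
    have f1 : (0 : Fin 4) + 2 = 2 := rfl
    have f2 : (1 : Fin 4) + 2 = 3 := rfl
    have f3 : (2 : Fin 4) + 2 = 0 := rfl
    have f4 : (3 : Fin 4) + 2 = 1 := rfl
    fin_cases q <;> simp only [Fin.zero_eta, Fin.mk_one, Fin.reduceFinMk, f1, f2, f3, f4] <;>
      simp only [vec, rot] <;> refine ⟨⟨?_, ?_⟩, ⟨?_, ?_⟩, ⟨?_, ?_⟩⟩ <;> push_cast <;> omega

lemma vec_adj {h : ℕ} {x y : Pt} (hr : (PH h).Adj x y) :
    |(vec h x).1 + (vec h y).1| ≤ 2 ∧ |(vec h x).2.1 + (vec h y).2.1| ≤ 2 ∧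
      |(vec h x).2.2 + (vec h y).2.2| ≤ 2 := by
  rcases PH_adj hr with hr | hr
  · exact vec_rel hr
  · have := vec_rel hr
    rw [add_comm (vec h y).1, add_comm (vec h y).2.1, add_comm (vec h y).2.2] at this
    exact this

lemma norm_rot (q : Fin 4) (a b c : ℤ) :
    |(rot q a b c).1| + |(rot q a b c).2.1| + |(rot q a b c).2.2| = |a| + |b| + |c| := by
  fin_cases q <;> simp only [Fin.zero_eta, Fin.mk_one, Fin.reduceFinMk, rot, abs_neg]
  · ring
  · ring

lemma vec_norm {h : ℕ} {x : Pt} (hv : x.2.2.1 ≤ x.2.1 ∧ x.2.1 < h ∧ (x.2.2.2 = true → x.2.1 + 1 < h)) :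
    (3 * h : ℤ) ≤ |(vec h x).1| + |(vec h x).2.1| + |(vec h x).2.2| := by
  obtain ⟨q, r, j, f⟩ := x
  simp only at hv
  obtain ⟨h1, h2, h3⟩ := hv
  cases f
  · simp only [vec]
    rw [norm_rot]
    have a1 := le_abs_self (3 * ((r : ℤ) - j) + 1)
    have a2 := le_abs_self (3 * (j : ℤ) + 1)
    have a3 := le_abs_self (3 * ((h : ℤ) - r) - 2)
    omega
  · simp only [vec]
    rw [norm_rot]
    have a1 := neg_le_abs (-(3 * ((r : ℤ) - j) + 2))
    have a2 := neg_le_abs (-(3 * (j : ℤ) + 2))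
    have a3 := neg_le_abs (-(3 * ((h : ℤ) - r) - 4))
    omega

lemma PRel.valid {h : ℕ} {x y : Pt} (hr : PRel h x y) :
    (x.2.2.1 ≤ x.2.1 ∧ x.2.1 < h ∧ (x.2.2.2 = true → x.2.1 + 1 < h)) ∧
    (y.2.2.1 ≤ y.2.1 ∧ y.2.1 < h ∧ (y.2.2.2 = true → y.2.1 + 1 < h)) := by
  cases hr <;> simp only [Bool.false_eq_true, false_imp_iff, true_imp_iff, forall_const, and_true] <;>
    (try constructor) <;> omega

lemma PH_odd {h : ℕ} {x : Pt} (p : (PH h).Walk x x) (ho : Odd p.length) : h ≤ p.length := by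
  have hv : x.2.2.1 ≤ x.2.1 ∧ x.2.1 < h ∧ (x.2.2.2 = true → x.2.1 + 1 < h) := by
    cases p with
    | nil => simp at ho
    | cons hxy _ =>
      rcases PH_adj hxy with h1 | h1
      · exact h1.valid.1
      · exact h1.valid.2
  have h1 := odd_walk_bd (fun x => (vec h x).1) (fun a b hab => (vec_adj hab).1) p ho
  have h2 := odd_walk_bd (fun x => (vec h x).2.1) (fun a b hab => (vec_adj hab).2.1) p ho
  have h3 := odd_walk_bd (fun x => (vec h x).2.2) (fun a b hab => (vec_adj hab).2.2) p ho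
  have h4 := vec_norm hv
  have : (3 * h : ℤ) ≤ 3 * p.length := by linarith
  omega

/-- the inclusion of the finite graph -/
def incl (h : ℕ) : PG h →g PH h := ⟨Subtype.val, fun {_ _} hab => hab⟩

lemma PG_odd {h : ℕ} {x : PW h} (p : (PG h).Walk x x) (ho : Odd p.length) : h ≤ p.length := by
  have := PH_odd (p.map (incl h)) (by rw [Walk.length_map]; exact ho)
  rw [Walk.length_map] at this
  exact this

end Pool.Agent.MP1d59
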