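import Pool.Agent.Lib.MP_1d59ee_co.Rigid
import Pool.Agent.Lib.MP_1d59ee_co.Proj
import Pool.Agent.Lib.MP_1d59ee_co.Klein

/-!
Triangle-free graphs.
-/

set_option autoImplicit false

namespace Pool.Agent.MP1d59

open SimpleGraph

lemma exists_odd_walk {V : Type*} (G : SimpleGraph V)
    (h : IsEmpty (G →g (⊤ : SimpleGraph (Fin 2)))) :
    ∃ (u : V) (p : G.Walk u u), Odd p.length := by
  by_contra hcon
  push Not at hcon
  have h2 : G.Colorable 2 := by
    rw [two_colorable_iff_forall_loop_even]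
    intro u p
    exact Nat.not_odd_iff_even.mp (hcon u p)
  obtain ⟨c⟩ := h2
  exact h.false c

lemma triFree_of {V : Type*} (G : SimpleGraph V)
    (h : IsEmpty ((⊤ : SimpleGraph (Fin 3)) →g G)) : TriFree G := by
  intro a b c hab hbc hac
  refine h.false ⟨![a, b, c], ?_⟩
  intro i j hij
  have hij' : i ≠ j := hij
  fin_cases i <;> fin_cases j <;> simp at hij' ⊢
  · exact hab
  · exact hac
  · exact hab.symm
  · exact hbc
  · exact hac.symm
  · exact hbc.symm

/-- an odd weight on the triangle -/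
def w3 (i j : Fin 3) : ℤ := if i < j then 1 else -1

lemma w3_odd : OddWt (⊤ : SimpleGraph (Fin 3)) w3 := by
  refine ⟨?_, ?_, ?_⟩
  · intro a b _
    unfold w3
    split <;> decide
  · intro a b hab
    have hab' : a ≠ b := hab
    revert a b
    decide
  · intro a b c d h1 h2 h3 h4
    have h1' : a ≠ b := h1
    have h2' : b ≠ c := h2
    have h3' : c ≠ d := h3
    have h4' : d ≠ a := h4
    clear h1 h2 h3 h4
    revert a b c d
    decide

/-- Graphs of maximum degree three. -/
theorem main_three {V : Type} [Finite V] (G : SimpleGraph V)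
    (hd : ∀ v, (G.neighborSet v).ncard ≤ 3)
    (hb : IsEmpty (G →g (⊤ : SimpleGraph (Fin 2))))
    (ht : IsEmpty ((⊤ : SimpleGraph (Fin 3)) →g G)) :
    ∃ (W : Type) (_ : Finite W) (H : SimpleGraph W),
      (∀ w, (H.neighborSet w).ncard ≤ 3) ∧ IsEmpty (G →g H) ∧ IsEmpty (H →g G) := by
  obtain ⟨p, hp1, hp⟩ := Nat.exists_infinite_primes (Nat.card V ^ 4 + 13)
  haveI : Fact p.Prime := ⟨hp⟩
  haveI : NeZero p := ⟨hp.ne_zero⟩
  have hR : IsEmpty (GP p →g G) := GP_no_hom (by omega) G hd (triFree_of G ht) (by omega)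
  by_cases h : IsEmpty (G →g GP p)
  · exact ⟨ZMod p × Bool, inferInstance, GP p, GP_deg p, h, hR⟩
  · rw [not_isEmpty_iff] at h
    obtain ⟨ψ⟩ := h
    obtain ⟨u, q, hq⟩ := exists_odd_walk G hb
    refine ⟨PW (q.length + 1), (PW_finite _).to_subtype, PG (q.length + 1), PG_deg, ?_, ?_⟩
    · constructor
      intro φ
      have := PG_odd (q.map φ) (by rw [Walk.length_map]; exact hq)
      rw [Walk.length_map] at this
      omega
    · constructor
      intro φ
      exact (PG_no_hom (Nat.succ_pos _) (GP_oddWt (p := p) (by omega))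
        (GP_six (p := p) (by omega))).false (ψ.comp φ)

lemma top_deg (k : ℕ) (w : Fin (k + 1)) : ((⊤ : SimpleGraph (Fin (k + 1))).neighborSet w).ncard ≤ k := by
  have h1 : (⊤ : SimpleGraph (Fin (k + 1))).neighborSet w = {w}ᶜ := by
    ext x
    simp [eq_comm]
  rw [h1, Set.ncard_compl]
  simp

/-- Non-bipartite 3-colourable graphs, degree bound at least four. -/
theorem main_threeCol {V : Type} (d : ℕ) (hd4 : 4 ≤ d) (G : SimpleGraph V)
    (hb : IsEmpty (G →g (⊤ : SimpleGraph (Fin 2))))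
    (h : Nonempty (G →g (⊤ : SimpleGraph (Fin 3)))) :
    ∃ (W : Type) (_ : Finite W) (H : SimpleGraph W),
      (∀ w, (H.neighborSet w).ncard ≤ d) ∧ IsEmpty (G →g H) ∧ IsEmpty (H →g G) := by
  obtain ⟨ψ⟩ := h
  obtain ⟨u, q, hq⟩ := exists_odd_walk G hb
  haveI : NeZero (2 * q.length + 3) := ⟨by omega⟩
  refine ⟨KW (2 * q.length + 3) (q.length + 2), (KW_finite _ _).to_subtype, KG _ _,
    fun w => (KG_deg w).trans hd4, ?_, ?_⟩
  · constructor
    intro φ
    refine KG_odd (q.map φ) ?_ ?_ ?_ <;> rw [Walk.length_map]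
    · exact hq
    · omega
    · omega
  · constructor
    intro φ
    exact (KG_no_hom (by omega) ⟨q.length + 1, by ring⟩ (by omega) w3_odd).false (ψ.comp φ)

/-- Triangle-free graphs, degree bound at least four. -/
theorem main_triFree {V : Type} (d : ℕ) (hd4 : 4 ≤ d) (G : SimpleGraph V)
    (hb : IsEmpty (G →g (⊤ : SimpleGraph (Fin 2))))
    (ht : IsEmpty ((⊤ : SimpleGraph (Fin 3)) →g G)) :
    ∃ (W : Type) (_ : Finite W) (H : SimpleGraph W),
      (∀ w, (H.neighborSet w).ncard ≤ d) ∧ IsEmpty (G →g H) ∧ IsEmpty (H →g G) := by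
  by_cases h : IsEmpty (G →g (⊤ : SimpleGraph (Fin 3)))
  · exact ⟨Fin 3, inferInstance, ⊤, fun w => (top_deg 2 w).trans (by omega), h, ht⟩
  · exact main_threeCol d hd4 G hb (not_isEmpty_iff.1 h)

end Pool.Agent.MP1d59
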