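import Pool.Agent.Lib.MP_1d59ee_co.Seven
import Pool.Agent.Lib.MP_1d59ee_co.TriFree

/-!
Chains of gadgets and the case of maximum degree four.
-/

set_option autoImplicit false

namespace Pool.Agent.MP1d59

open SimpleGraph

/-- The gadget at position `i` of the chain, on `Fin 8` (the last vertex is isolated for
`i ≥ 1`). -/
def gd (i : ℕ) (a b : Fin 8) : Bool :=
  if i = 0 then w8 a b else
    if h : a.val < 7 ∧ b.val < 7 then w7 ⟨a.val, h.1⟩ ⟨b.val, h.2⟩ else false

/-- Adjacency in the infinite chain. -/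
def CRel (p q : ℕ × Fin 8) : Prop :=
  (p.1 = q.1 ∧ gd p.1 p.2 q.2 = true) ∨ (p.1 + 1 = q.1 ∧ p.2 = 2 ∧ q.2 = 0) ∨
    (q.1 + 1 = p.1 ∧ q.2 = 2 ∧ p.2 = 0)

def g7 (a b : Fin 8) : Bool :=
  if h : a.val < 7 ∧ b.val < 7 then w7 ⟨a.val, h.1⟩ ⟨b.val, h.2⟩ else false

lemma gd_cases (i : ℕ) : gd i = w8 ∨ gd i = g7 := by
  rcases Nat.eq_zero_or_pos i with rfl | h
  · left; funext a b; simp [gd]
  · right; funext a b; simp only [gd, g7, if_neg (by omega : ¬ i = 0)]

lemma gd_symm (i : ℕ) (a b : Fin 8) : gd i a b = gd i b a := by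
  rcases gd_cases i with h | h <;> rw [h]
  · exact w8_symm a b
  · revert a b; decide

lemma gd_irr (i : ℕ) (a : Fin 8) : gd i a a = false := by
  rcases gd_cases i with h | h <;> rw [h]
  · revert a; decide
  · revert a; decide

/-- The infinite chain. -/
def CI : SimpleGraph (ℕ × Fin 8) where
  Adj := CRel
  symm := ⟨by
    rintro p q (⟨h1, h2⟩ | h | h)
    · left; exact ⟨h1.symm, by rw [← h1, gd_symm]; exact h2⟩
    · right; right; exact h
    · right; left; exact h⟩
  loopless := ⟨by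
    rintro p (⟨_, h2⟩ | ⟨h, _⟩ | ⟨h, _⟩)
    · rw [gd_irr] at h2; exact Bool.noConfusion h2
    · omega
    · omega⟩

def CS (m : ℕ) : Set (ℕ × Fin 8) := {p | p.1 ≤ m}

lemma CS_finite (m : ℕ) : (CS m).Finite := by
  refine (((Finset.range (m + 1)) ×ˢ (Finset.univ : Finset (Fin 8))).finite_toSet).subset ?_
  intro p hp
  have : p.1 ≤ m := hp
  simp only [Finset.coe_product, Set.mem_prod, Finset.coe_range, Set.mem_Iio, Finset.coe_univ,
    Set.mem_univ, and_true]
  omega

/-- The finite chain. -/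
def CG (m : ℕ) : SimpleGraph (CS m) := CI.induce (CS m)

/-- Number of neighbours inside the gadget. -/
lemma gd_len (i : ℕ) (a : Fin 8) :
    (nbl (gd i) a).length + (if a = 2 then 1 else 0) + (if a = 0 then 1 else 0) ≤ 4 := by
  rcases gd_cases i with h | h <;> rw [h] <;> revert a <;> decide

lemma CI_nbr (p q : ℕ × Fin 8) (h : CI.Adj p q) :
    q ∈ (nbl (gd p.1) p.2).map (fun b => (p.1, b)) ++ (if p.2 = 2 then [(p.1 + 1, (0 : Fin 8))] else [])
      ++ (if p.2 = 0 then [(p.1 - 1, (2 : Fin 8))] else []) := by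
  obtain ⟨i, a⟩ := p
  obtain ⟨j, b⟩ := q
  rcases h with ⟨h1, h2⟩ | ⟨h1, h2, h3⟩ | ⟨h1, h2, h3⟩
  · simp only at h1 h2
    subst h1
    simp only [List.mem_append, List.mem_map]
    left; left
    exact ⟨b, mem_nbl.2 h2, rfl⟩
  · simp only at h1 h2 h3
    subst h1; subst h2; subst h3
    simp
  · simp only at h1 h2 h3
    subst h1; subst h2; subst h3
    simp

lemma CI_deg (p : ℕ × Fin 8) : (CI.neighborSet p).ncard ≤ 4 := by
  classical
  set l := (nbl (gd p.1) p.2).map (fun b => (p.1, b)) ++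
    (if p.2 = 2 then [(p.1 + 1, (0 : Fin 8))] else []) ++
      (if p.2 = 0 then [(p.1 - 1, (2 : Fin 8))] else []) with hl
  have h1 : CI.neighborSet p ⊆ (l.toFinset : Set (ℕ × Fin 8)) := by
    intro q hq
    simp only [List.coe_toFinset, Set.mem_ofPred_eq]
    exact CI_nbr p q hq
  have h2 := Set.ncard_le_ncard h1 (Finset.finite_toSet _)
  rw [Set.ncard_coe_finset] at h2
  refine h2.trans ((List.toFinset_card_le l).trans ?_)
  have h3 := gd_len p.1 p.2
  rw [hl, List.length_append, List.length_append, List.length_map]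
  split_ifs at h3 ⊢ <;> simp only [List.length_cons, List.length_nil] <;> omega

lemma CG_deg {m : ℕ} (p : CS m) : ((CG m).neighborSet p).ncard ≤ 4 := by
  classical
  have hfin : (CI.neighborSet p.1).Finite := by
    refine Set.Finite.subset (List.finite_toSet _) (fun q hq => CI_nbr p.1 q hq)
  have h1 : (Subtype.val '' ((CG m).neighborSet p)) ⊆ CI.neighborSet p.1 := by
    rintro _ ⟨q, hq, rfl⟩
    exact hq
  have h2 := Set.ncard_le_ncard h1 hfin
  rw [Set.ncard_image_of_injective _ Subtype.val_injective] at h2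
  exact h2.trans (CI_deg p.1)

/-- Triangles stay inside one gadget. -/
lemma CI_tri {p q r : ℕ × Fin 8} (hpq : CI.Adj p q) (hqr : CI.Adj q r) (hpr : CI.Adj p r) :
    p.1 = q.1 := by
  obtain ⟨i, a⟩ := p
  obtain ⟨j, b⟩ := q
  obtain ⟨k, c⟩ := r
  have hpq' : CRel (i, a) (j, b) := hpq
  have hqr' : CRel (j, b) (k, c) := hqr
  have hpr' : CRel (i, a) (k, c) := hpr
  simp only [CRel] at hpq' hqr' hpr'
  rcases hpq' with ⟨h, _⟩ | ⟨h1, h2, h3⟩ | ⟨h1, h2, h3⟩
  · exact h
  · exfalso
    subst h1; subst h2; subst h3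
    rcases hqr' with ⟨h4, h5⟩ | ⟨h4, h5, h6⟩ | ⟨h4, h5, h6⟩
    · rcases hpr' with ⟨h7, h8⟩ | ⟨h7, h8, h9⟩ | ⟨h7, h8, h9⟩
      · omega
      · subst h9; rw [gd_irr] at h5; exact Bool.noConfusion h5
      · omega
    · exact absurd h5 (by decide)
    · rcases hpr' with ⟨h7, h8⟩ | ⟨h7, h8, h9⟩ | ⟨h7, h8, h9⟩
      · subst h5; rw [gd_irr] at h8; exact Bool.noConfusion h8
      · omega
      · omega
  · exfalso
    subst h1; subst h2; subst h3
    rcases hqr' with ⟨h4, h5⟩ | ⟨h4, h5, h6⟩ | ⟨h4, h5, h6⟩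
    · rcases hpr' with ⟨h7, h8⟩ | ⟨h7, h8, h9⟩ | ⟨h7, h8, h9⟩
      · omega
      · omega
      · subst h8; rw [gd_irr] at h5; exact Bool.noConfusion h5
    · rcases hpr' with ⟨h7, h8⟩ | ⟨h7, h8, h9⟩ | ⟨h7, h8, h9⟩
      · subst h6; rw [gd_irr] at h8; exact Bool.noConfusion h8
      · omega
      · omega
    · exact absurd h6 (by decide)

lemma gd_k4 (i : ℕ) (a b c d : Fin 8) (h1 : gd i a b = true) (h2 : gd i a c = true)
    (h3 : gd i a d = true) (h4 : gd i b c = true) (h5 : gd i b d = true) (h6 : gd i c d = true) :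
    False := by
  have key8 : ∀ a b, w8 a b = true → ∀ c, w8 a c = true → w8 b c = true → ∀ d, w8 a d = true →
      w8 b d = true → w8 c d = true → False := by decide +kernel
  have key7 : ∀ a b, g7 a b = true → ∀ c, g7 a c = true → g7 b c = true → ∀ d, g7 a d = true →
      g7 b d = true → g7 c d = true → False := by decide +kernel
  rcases gd_cases i with h | h <;> rw [h] at h1 h2 h3 h4 h5 h6
  · exact key8 a b h1 c h2 h4 d h3 h5 h6
  · exact key7 a b h1 c h2 h4 d h3 h5 h6

lemma CI_same {p q : ℕ × Fin 8} (h : CI.Adj p q) (h1 : p.1 = q.1) : gd p.1 p.2 q.2 = true := by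
  rcases h with ⟨_, h2⟩ | ⟨h2, _⟩ | ⟨h2, _⟩
  · exact h2
  · omega
  · omega

lemma CI_k4 (p q r s : ℕ × Fin 8) (h1 : CI.Adj p q) (h2 : CI.Adj p r) (h3 : CI.Adj p s)
    (h4 : CI.Adj q r) (h5 : CI.Adj q s) (h6 : CI.Adj r s) : False := by
  have e1 : p.1 = q.1 := CI_tri h1 h4 h2
  have e2 : p.1 = r.1 := CI_tri h2 h4.symm h1
  have e3 : p.1 = s.1 := CI_tri h3 h5.symm h1
  have f1 := CI_same h1 e1
  have f2 := CI_same h2 e2
  have f3 := CI_same h3 e3
  have f4 := CI_same h4 (e1.symm.trans e2)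
  have f5 := CI_same h5 (e1.symm.trans e3)
  have f6 := CI_same h6 (e2.symm.trans e3)
  rw [← e1] at f4 f5
  rw [← e2] at f6
  exact gd_k4 p.1 p.2 q.2 r.2 s.2 f1 f2 f3 f4 f5 f6

lemma CI_tgt : Tgt CI := by
  classical
  constructor
  · intro v l hl h
    have hfin : (CI.neighborSet v).Finite :=
      Set.Finite.subset (List.finite_toSet _) (fun q hq => CI_nbr v q hq)
    have h1 : (l.toFinset : Set (ℕ × Fin 8)) ⊆ CI.neighborSet v := by
      intro u hu
      exact h u (by simpa using hu)
    have h2 := Set.ncard_le_ncard h1 hfin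
    rw [Set.ncard_coe_finset, List.toFinset_card_of_nodup hl] at h2
    exact h2.trans (CI_deg v)
  · exact CI_k4

lemma x7_len : ∀ a, (nbl x7 a).length = 4 := by decide

/-- The square of the seven-cycle does not map to the chain. -/
lemma x7_CI (f : Fin 7 → ℕ × Fin 8) (hf : ∀ a b, x7 a b = true → CI.Adj (f a) (f b)) : False := by
  classical
  have fi := x7_inj CI_tgt hf
  have hstep : ∀ a, (f a).1 = (f (a + 1)).1 := by
    intro a
    have h1 : x7 a (a + 1) = true := by revert a; decide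
    have h2 : x7 (a + 1) (a + 2) = true := by revert a; decide
    have h3 : x7 a (a + 2) = true := by revert a; decide
    exact CI_tri (hf _ _ h1) (hf _ _ h2) (hf _ _ h3)
  have hc : ∀ a, (f a).1 = (f 0).1 := by
    have e0 := hstep 0
    have e1 := hstep 1
    have e2 := hstep 2
    have e3 := hstep 3
    have e4 := hstep 4
    have e5 := hstep 5
    simp only [zero_add, show (1 : Fin 7) + 1 = 2 from rfl, show (2 : Fin 7) + 1 = 3 from rfl,
      show (3 : Fin 7) + 1 = 4 from rfl, show (4 : Fin 7) + 1 = 5 from rfl,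
      show (5 : Fin 7) + 1 = 6 from rfl] at e0 e1 e2 e3 e4 e5
    intro a
    fin_cases a
    · rfl
    · exact e0.symm
    · exact (e0.trans e1).symm
    · exact (e0.trans (e1.trans e2)).symm
    · exact (e0.trans (e1.trans (e2.trans e3))).symm
    · exact (e0.trans (e1.trans (e2.trans (e3.trans e4)))).symm
    · exact (e0.trans (e1.trans (e2.trans (e3.trans (e4.trans e5))))).symm
  set i := (f 0).1 with hi
  have si : Function.Injective (fun a => (f a).2) := by
    intro a b hab
    apply fi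
    exact Prod.ext ((hc a).trans (hc b).symm) hab
  have hg : ∀ a b, x7 a b = true → gd i (f a).2 (f b).2 = true := by
    intro a b hab
    have := CI_same (hf a b hab) ((hc a).trans (hc b).symm)
    rwa [hc a] at this
  have hdeg : ∀ a, 4 ≤ (nbl (gd i) (f a).2).length := by
    intro a
    have h1 : ((nbl x7 a).map (fun a => (f a).2)) ⊆ nbl (gd i) (f a).2 := by
      intro t ht
      obtain ⟨c, hc, rfl⟩ := List.mem_map.1 ht
      exact mem_nbl.2 (hg _ _ (mem_nbl.1 hc))
    have h2 := (((nbl_nodup a).map si).subperm h1).length_le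
    have h3 : (nbl x7 a).length = 4 := x7_len a
    rw [List.length_map, h3] at h2
    exact h2
  have hp : ∀ a, (f a).2 ≠ 0 ∧ (f a).2 ≠ 2 := by
    intro a
    have h1 := gd_len i (f a).2
    have h2 := hdeg a
    constructor
    · intro h
      rw [if_pos h] at h1
      omega
    · intro h
      rw [if_pos h] at h1
      omega
  have hcard : (Finset.univ.image (fun a => (f a).2)).card = 7 := by
    rw [Finset.card_image_of_injective _ si]
    rfl
  have hsub : Finset.univ.image (fun a => (f a).2) ⊆ (Finset.univ.erase (0 : Fin 8)).erase 2 := by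
    intro t ht
    obtain ⟨a, _, rfl⟩ := Finset.mem_image.1 ht
    simp only [Finset.mem_erase, Finset.mem_univ, and_true]
    exact ⟨(hp a).2, (hp a).1⟩
  have := Finset.card_le_card hsub
  rw [hcard] at this
  revert this
  decide

/-- Long chains do not map to small graphs. -/
lemma CG_no_hom {V : Type*} [Finite V] {H : SimpleGraph V} (hT : Tgt H) {m : ℕ}
    (hm : Nat.card V ≤ m) (φ : CG m →g H) : False := by
  classical
  have h0m : (0 : ℕ) ≤ m := Nat.zero_le _
  let ψ : ℕ × Fin 8 → V := fun p => if h : p.1 ≤ m then φ ⟨p, h⟩ else φ ⟨(0, 0), h0m⟩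
  have hψ : ∀ p q : ℕ × Fin 8, p.1 ≤ m → q.1 ≤ m → CI.Adj p q → H.Adj (ψ p) (ψ q) := by
    intro p q hp hq hpq
    simp only [ψ, dif_pos hp, dif_pos hq]
    exact φ.map_adj hpq
  have hf0 : ∀ a b, w8 a b = true → H.Adj (ψ (0, a)) (ψ (0, b)) := by
    intro a b hab
    apply hψ _ _ h0m h0m
    left
    exact ⟨rfl, by simpa [gd] using hab⟩
  have hfi : ∀ i, 1 ≤ i → i ≤ m → ∀ a b : Fin 7, w7 a b = true →
      H.Adj (ψ (i, a.castSucc)) (ψ (i, b.castSucc)) := by
    intro i h1 h2 a b hab
    apply hψ _ _ h2 h2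
    left
    refine ⟨rfl, ?_⟩
    simp only [gd, if_neg (by omega : ¬ i = 0)]
    rw [dif_pos ⟨a.isLt, b.isLt⟩]
    exact hab
  set A : ℕ → Set V := fun i => if i = 0 then Set.range (fun a : Fin 8 => ψ (0, a))
    else Set.range (fun a : Fin 7 => ψ (i, a.castSucc)) with hA
  have hG : ∀ i ≤ m, GadIm H (A i) (ψ (i, 0)) (ψ (i, 2)) := by
    intro i hi
    by_cases h : i = 0
    · subst h
      simp only [hA, if_pos]
      exact w8_gad hT hf0
    · simp only [hA, if_neg h]
      exact w7_gad hT (hfi i (by omega) hi)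
  have hl : ∀ i < m, H.Adj (ψ (i, 2)) (ψ (i + 1, 0)) := by
    intro i hi
    apply hψ (i, 2) (i + 1, 0) (le_of_lt hi) hi
    right; left
    exact ⟨rfl, rfl, rfl⟩
  have hA0 : (A 0).ncard = 8 := by
    simp only [hA, if_pos]
    rw [← Set.image_univ, Set.ncard_image_of_injective _ (w8_inj hT hf0), Set.ncard_univ]
    simp
  have hAi : ∀ i, 1 ≤ i → i ≤ m → (A i).ncard = 7 := by
    intro i h1 h2
    simp only [hA, if_neg (by omega : ¬ i = 0)]
    rw [← Set.image_univ, Set.ncard_image_of_injective _ (w7_inj hT (hfi i h1 h2)), Set.ncard_univ]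
    simp
  have key := chain_card m A (fun i => ψ (i, 0)) (fun i => ψ (i, 2)) hG hl
    (by
      intro i h1 h2 h
      have := hAi i h1 h2
      rw [h, hA0] at this
      omega)
    (by
      intro i h1 h2 h3 h4
      simp only [hA, if_neg (by omega : ¬ i = 0), if_neg (by omega : ¬ i + 1 = 0)] at h3 h4
      refine w7_same hT (hfi i h1 (by omega)) (hfi (i + 1) (by omega) (by omega)) h3
        (ψ (i - 1, 2)) ?_ h4 ?_
      · have := (hl (i - 1) (by omega)).symm
        rw [Nat.sub_add_cancel h1] at this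
        exact this
      · exact hl i h2)
  omega

/-- The square of the seven-cycle as a graph. -/
def X7 : SimpleGraph (Fin 7) where
  Adj a b := x7 a b = true
  symm := ⟨fun a b h => by rw [x7_symm]; exact h⟩
  loopless := ⟨by intro a; revert a; decide⟩

lemma X7_deg (v : Fin 7) : (X7.neighborSet v).ncard ≤ 4 := by
  classical
  have h1 : X7.neighborSet v ⊆ ((nbl x7 v).toFinset : Set (Fin 7)) := by
    intro u hu
    simp only [List.coe_toFinset, Set.mem_ofPred_eq]
    exact mem_nbl.2 hu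
  have h2 := Set.ncard_le_ncard h1 (Finset.finite_toSet _)
  rw [Set.ncard_coe_finset] at h2
  exact h2.trans ((List.toFinset_card_le _).trans (x7_len v).le)

/-- The odd weight on the square of the seven-cycle. -/
def wx7 (a b : Fin 7) : ℤ :=
  if b - a = 1 then -3 else if b - a = 2 then 1 else if b - a = 5 then -1 else if b - a = 6 then 3
  else 0

lemma X7_odd : OddWt X7 wx7 := by
  constructor
  · intro a b h
    have key : ∀ a b, x7 a b = true → wx7 a b % 2 = 1 := by decide
    exact Int.odd_iff.2 (key a b h)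
  · intro a b h
    have key : ∀ a b, x7 a b = true → wx7 b a = - wx7 a b := by decide
    exact key a b h
  · intro a b c d h1 h2 h3 h4
    have key : ∀ a b, x7 a b = true → ∀ c, x7 b c = true → ∀ d, x7 c d = true → x7 d a = true →
        wx7 a b + wx7 b c + wx7 c d + wx7 d a = 0 := by decide +kernel
    exact key a b h1 c h2 d h3 h4

/-- Graphs with a triangle and maximum degree four. -/
theorem main_four {V : Type} [Finite V] (G : SimpleGraph V)
    (hd : ∀ v, (G.neighborSet v).ncard ≤ 4)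
    (h3 : Nonempty ((⊤ : SimpleGraph (Fin 3)) →g G))
    (hk : IsEmpty ((⊤ : SimpleGraph (Fin 4)) →g G)) :
    ∃ (W : Type) (_ : Finite W) (H : SimpleGraph W),
      (∀ w, (H.neighborSet w).ncard ≤ 4) ∧ IsEmpty (G →g H) ∧ IsEmpty (H →g G) := by
  classical
  have hT := tgt_of G hd hk
  by_cases hGX : IsEmpty (G →g X7)
  · by_cases hXG : IsEmpty (X7 →g G)
    · exact ⟨Fin 7, inferInstance, X7, X7_deg, hGX, hXG⟩
    · rw [not_isEmpty_iff] at hXG
      obtain ⟨χ⟩ := hXG
      refine ⟨CS (Nat.card V), (CS_finite _).to_subtype, CG (Nat.card V), CG_deg, ?_, ?_⟩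
      · constructor
        intro φ
        exact x7_CI (fun a => (φ (χ a)).1) (fun a b hab => φ.map_adj (χ.map_adj hab))
      · constructor
        intro φ
        exact CG_no_hom hT le_rfl φ
  · rw [not_isEmpty_iff] at hGX
    obtain ⟨ψ⟩ := hGX
    obtain ⟨t⟩ := h3
    haveI : NeZero 5 := ⟨by omega⟩
    refine ⟨KW 5 5, (KW_finite _ _).to_subtype, KG 5 5, KG_deg, ?_, ?_⟩
    · constructor
      intro φ
      let c : (⊤ : SimpleGraph (Fin 3)) →g KG 5 5 := φ.comp t
      have a01 : (KG 5 5).Adj (c 0) (c 1) := c.map_adj (by decide)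
      have a12 : (KG 5 5).Adj (c 1) (c 2) := c.map_adj (by decide)
      have a20 : (KG 5 5).Adj (c 2) (c 0) := c.map_adj (by decide)
      refine KG_odd (Walk.cons a01 (Walk.cons a12 (Walk.cons a20 Walk.nil))) ?_ ?_ ?_
      · simp only [Walk.length_cons, Walk.length_nil]; decide
      · simp only [Walk.length_cons, Walk.length_nil]; omega
      · simp only [Walk.length_cons, Walk.length_nil]; omega
    · constructor
      intro φ
      exact (KG_no_hom (by omega) (by decide) (by omega) X7_odd).false (ψ.comp φ)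

end Pool.Agent.MP1d59
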