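import Pool.Agent.Lib.MP_1d59ee_co.Pet

/-!
The generalized Petersen graphs `GP(p,2)` and the odd weight on them.
-/

set_option autoImplicit false

namespace Pool.Agent.MP1d59

open SimpleGraph

/-- displacement of the move `k` from a vertex of type `b` -/
def mv : Fin 3 → Bool → ℤ
  | 0, false => 1
  | 1, false => -1
  | 2, _ => 0
  | 0, true => 2
  | 1, true => -2

def nb : Fin 3 → Bool → Bool
  | 2, b => !b
  | _, b => b

def wt : Fin 3 → Bool → ℤ
  | 0, _ => 1
  | 1, _ => -1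
  | 2, false => 1
  | 2, true => -1

/-- opposite move -/
def op : Fin 3 → Fin 3
  | 0 => 1
  | 1 => 0
  | 2 => 2

def step {p : ℕ} (k : Fin 3) (x : ZMod p × Bool) : ZMod p × Bool :=
  (x.1 + (mv k x.2 : ℤ), nb k x.2)

lemma step_op {p : ℕ} (k : Fin 3) (x : ZMod p × Bool) : step (op k) (step k x) = x := by
  obtain ⟨i, b⟩ := x
  fin_cases k <;> cases b <;> simp [step, op, mv, nb]

/-- The generalized Petersen graph `GP(p,2)`. -/
def GP (p : ℕ) : SimpleGraph (ZMod p × Bool) :=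
  SimpleGraph.fromRel (fun x y => ∃ k, y = step k x)

lemma GP_adj {p : ℕ} {x y : ZMod p × Bool} : (GP p).Adj x y ↔ x ≠ y ∧ ∃ k, y = step k x := by
  unfold GP
  rw [fromRel_adj]
  constructor
  · rintro ⟨h, h' | ⟨k, h'⟩⟩
    · exact ⟨h, h'⟩
    · exact ⟨h, op k, by rw [h', step_op]⟩
  · rintro ⟨h, h'⟩
    exact ⟨h, Or.inl h'⟩

lemma GP_deg (p : ℕ) (x : ZMod p × Bool) : ((GP p).neighborSet x).ncard ≤ 3 := by
  have h1 : (GP p).neighborSet x ⊆ Set.range (fun k : Fin 3 => step k x) := by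
    intro y hy
    rw [mem_neighborSet, GP_adj] at hy
    obtain ⟨_, k, hk⟩ := hy
    exact ⟨k, hk.symm⟩
  calc ((GP p).neighborSet x).ncard ≤ (Set.range (fun k : Fin 3 => step k x)).ncard :=
        Set.ncard_le_ncard h1 (Set.finite_range _)
    _ ≤ 3 := by
        rw [← Set.image_univ]
        refine (Set.ncard_image_le (Set.finite_univ)).trans ?_
        simp [Set.ncard_univ]

lemma small_zero {p : ℕ} {D : ℤ} (h : (D : ZMod p) = 0) (h1 : D < p) (h2 : -(p : ℤ) < D) :
    D = 0 := by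
  rw [ZMod.intCast_zmod_eq_zero_iff_dvd] at h
  exact Int.eq_zero_of_abs_lt_dvd h (abs_lt.mpr ⟨h2, h1⟩)

lemma mv_bd : ∀ k b, mv k b ≤ 2 ∧ -2 ≤ mv k b := by decide

lemma step_ne {p : ℕ} (hp : 5 ≤ p) (k : Fin 3) (x : ZMod p × Bool) : x ≠ step k x := by
  intro h
  have h1 := congrArg Prod.fst h
  have h2 := congrArg Prod.snd h
  simp only [step] at h1 h2
  have h3 : ((mv k x.2 : ℤ) : ZMod p) = 0 := by
    have : x.1 + ((mv k x.2 : ℤ) : ZMod p) = x.1 + 0 := by rw [add_zero]; exact h1.symm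
    exact add_left_cancel this
  have hb := mv_bd k x.2
  have h4 := small_zero h3 (by omega) (by omega)
  have h5 : ∀ k b, mv k b = 0 → b ≠ nb k b := by decide
  exact h5 k x.2 h4 h2

lemma GP_step {p : ℕ} (hp : 5 ≤ p) (k : Fin 3) (x : ZMod p × Bool) : (GP p).Adj x (step k x) :=
  GP_adj.mpr ⟨step_ne hp k x, k, rfl⟩

lemma step_inj {p : ℕ} (hp : 5 ≤ p) (k l : Fin 3) (x : ZMod p × Bool) (h : step k x = step l x) :
    k = l := by
  have h1 := congrArg Prod.fst h
  have h2 := congrArg Prod.snd h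
  simp only [step] at h1 h2
  have h3 : ((mv k x.2 - mv l x.2 : ℤ) : ZMod p) = 0 := by
    push_cast
    rw [sub_eq_zero]
    exact add_left_cancel h1
  have hb := mv_bd k x.2
  have hb' := mv_bd l x.2
  have h4 := small_zero h3 (by omega) (by omega)
  have h5 : ∀ k l b, mv k b - mv l b = 0 → nb k b = nb l b → k = l := by decide
  exact h5 k l x.2 h4 h2

/-- The weight of the directed edge from `x` to `y`. -/
def wgt {p : ℕ} (x y : ZMod p × Bool) : ℤ :=
  if y = step 0 x then wt 0 x.2 else if y = step 1 x then wt 1 x.2 else wt 2 x.2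

lemma wgt_step {p : ℕ} (hp : 5 ≤ p) (k : Fin 3) (x : ZMod p × Bool) :
    wgt x (step k x) = wt k x.2 := by
  unfold wgt
  fin_cases k
  · simp
  · have : step (1 : Fin 3) x ≠ step 0 x := fun h => by simpa using step_inj hp _ _ x h
    simp [this]
  · have h0 : step (2 : Fin 3) x ≠ step 0 x := fun h => by simpa using step_inj hp _ _ x h
    have h1 : step (2 : Fin 3) x ≠ step 1 x := fun h => by simpa using step_inj hp _ _ x h
    simp [h0, h1]

lemma wt_closed : ∀ (b : Bool) (k0 k1 k2 k3 k4 k5 : Fin 3),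
    let b1 := nb k0 b; let b2 := nb k1 b1; let b3 := nb k2 b2; let b4 := nb k3 b3
    let b5 := nb k4 b4; let b6 := nb k5 b5
    b6 = b → mv k0 b + mv k1 b1 + mv k2 b2 + mv k3 b3 + mv k4 b4 + mv k5 b5 = 0 →
    wt k0 b + wt k1 b1 + wt k2 b2 + wt k3 b3 + wt k4 b4 + wt k5 b5 = 0 := by
  decide +kernel

/-- an odd antisymmetric weight with zero sum along closed walks of length six -/
structure OddWt {V : Type*} (X : SimpleGraph V) (w : V → V → ℤ) : Prop where
  odd : ∀ {a b}, X.Adj a b → Odd (w a b)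
  anti : ∀ {a b}, X.Adj a b → w b a = - w a b
  four : ∀ {a b c d}, X.Adj a b → X.Adj b c → X.Adj c d → X.Adj d a →
    w a b + w b c + w c d + w d a = 0

def Six {V : Type*} (X : SimpleGraph V) (w : V → V → ℤ) : Prop :=
  ∀ {a b c d e f}, X.Adj a b → X.Adj b c → X.Adj c d → X.Adj d e → X.Adj e f → X.Adj f a →
    w a b + w b c + w c d + w d e + w e f + w f a = 0

lemma GP_six {p : ℕ} (hp : 13 ≤ p) : Six (GP p) (wgt (p := p)) := by
  intro a b c d e f h0 h1 h2 h3 h4 h5
  have hp' : 5 ≤ p := by omega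
  obtain ⟨_, k0, rfl⟩ := GP_adj.mp h0
  obtain ⟨_, k1, rfl⟩ := GP_adj.mp h1
  obtain ⟨_, k2, rfl⟩ := GP_adj.mp h2
  obtain ⟨_, k3, rfl⟩ := GP_adj.mp h3
  obtain ⟨_, k4, rfl⟩ := GP_adj.mp h4
  obtain ⟨_, k5, hk5⟩ := GP_adj.mp h5
  rw [wgt_step hp', wgt_step hp', wgt_step hp', wgt_step hp', wgt_step hp']
  conv_lhs => rw [hk5]
  rw [← hk5]
  have e5 : wgt (step k4 (step k3 (step k2 (step k1 (step k0 a))))) a
      = wt k5 (step k4 (step k3 (step k2 (step k1 (step k0 a))))).2 := by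
    conv_lhs => rw [hk5]
    rw [← hk5]
    exact (congrArg (wgt _) hk5).trans (wgt_step hp' k5 _)
  rw [e5]
  have ha1 := congrArg Prod.fst hk5
  have ha2 := congrArg Prod.snd hk5
  have hz := wt_closed a.2 k0 k1 k2 k3 k4 k5
  simp only [step] at ha1 ha2 ⊢
  refine hz ha2.symm ?_
  set b0 := a.2
  set b1 := nb k0 b0
  set b2 := nb k1 b1
  set b3 := nb k2 b2
  set b4 := nb k3 b3
  set b5 := nb k4 b4
  apply small_zero (p := p)
  · push_cast
    have : a.1 + (((mv k0 b0 : ℤ) : ZMod p) + mv k1 b1 + mv k2 b2 + mv k3 b3 + mv k4 b4 + mv k5 b5)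
        = a.1 + 0 := by
      rw [add_zero]
      conv_rhs => rw [ha1]
      ring
    exact add_left_cancel this
  · have := mv_bd k0 b0; have := mv_bd k1 b1; have := mv_bd k2 b2; have := mv_bd k3 b3
    have := mv_bd k4 b4; have := mv_bd k5 b5; omega
  · have := mv_bd k0 b0; have := mv_bd k1 b1; have := mv_bd k2 b2; have := mv_bd k3 b3
    have := mv_bd k4 b4; have := mv_bd k5 b5; omega

lemma GP_oddWt {p : ℕ} (hp : 13 ≤ p) : OddWt (GP p) (wgt (p := p)) := by
  have hp' : 5 ≤ p := by omega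
  have anti : ∀ {a b}, (GP p).Adj a b → wgt b a = - wgt a b := by
    intro a b h
    obtain ⟨_, k, rfl⟩ := GP_adj.mp h
    have h1 : wgt (step k a) a = wt (op k) (step k a).2 := by
      conv_lhs => rw [← step_op k a]
      rw [step_op]
      exact (congrArg (wgt _) (step_op k a).symm).trans (wgt_step hp' _ _)
    rw [h1, wgt_step hp']
    have h2 : ∀ k b, wt (op k) (nb k b) = - wt k b := by decide
    exact h2 k a.2
  refine ⟨?_, anti, ?_⟩
  · intro a b h
    obtain ⟨_, k, rfl⟩ := GP_adj.mp h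
    rw [wgt_step hp']
    have h2 : ∀ k b, wt k b = 1 ∨ wt k b = -1 := by decide
    rcases h2 k a.2 with h | h <;> rw [h] <;> decide
  · intro a b c d h1 h2 h3 h4
    have h := GP_six hp h1 h2 h3 h4 h1 h1.symm
    have h' := anti h1
    omega

end Pool.Agent.MP1d59
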