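import Mathlib

/-!
Rigid gadgets in graphs of maximum degree four without a complete subgraph on four vertices.
-/

set_option autoImplicit false

namespace Pool.Agent.MP1d59

open SimpleGraph

/-- Maximum degree four and no complete subgraph on four vertices. -/
structure Tgt {V : Type*} (H : SimpleGraph V) : Prop where
  five : ∀ (v : V) (l : List V), l.Nodup → (∀ u ∈ l, H.Adj v u) → l.length ≤ 4
  k4 : ∀ a b c d : V, H.Adj a b → H.Adj a c → H.Adj a d → H.Adj b c → H.Adj b d → H.Adj c d → False

lemma tgt_of {V : Type*} [Finite V] (H : SimpleGraph V) (hd : ∀ v, (H.neighborSet v).ncard ≤ 4)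
    (hk : IsEmpty ((⊤ : SimpleGraph (Fin 4)) →g H)) : Tgt H := by
  classical
  constructor
  · intro v l hl h
    have h1 : (l.toFinset : Set V) ⊆ H.neighborSet v := by
      intro u hu
      exact h u (by simpa using hu)
    have h2 := Set.ncard_le_ncard h1 (Set.toFinite _)
    rw [Set.ncard_coe_finset, List.toFinset_card_of_nodup hl] at h2
    exact h2.trans (hd v)
  · intro a b c d hab hac had hbc hbd hcd
    refine hk.false ⟨![a, b, c, d], ?_⟩
    intro i j hij
    have hne : i ≠ j := hij
    fin_cases i <;> fin_cases j <;> first | (exact absurd rfl hne) | skip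
    all_goals simp only [Matrix.cons_val_zero, Matrix.cons_val_one, Matrix.cons_val,
      Fin.zero_eta, Fin.mk_one, Fin.reduceFinMk, Fin.isValue]
    all_goals first | assumption | (apply SimpleGraph.Adj.symm; assumption)

section cert

variable {n : ℕ} (adj : Fin n → Fin n → Bool)

/-- Adjacent, or the identification of the two vertices creates a `K_4`. -/
def D1 (a b : Fin n) : Prop :=
  adj a b = true ∨ ∃ u v w, adj u v = true ∧ adj v w = true ∧ adj u w = true ∧
    (adj a u = true ∨ adj b u = true) ∧ (adj a v = true ∨ adj b v = true) ∧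
    (adj a w = true ∨ adj b w = true)

instance (a b : Fin n) : Decidable (D1 adj a b) := by unfold D1; infer_instance

variable {adj}

lemma D1.ne {V : Type*} {H : SimpleGraph V} (hT : Tgt H) {f : Fin n → V}
    (hf : ∀ a b, adj a b = true → H.Adj (f a) (f b)) {a b : Fin n} (h : D1 adj a b) :
    f a ≠ f b := by
  rcases h with h | ⟨u, v, w, huv, hvw, huw, hu, hv, hw⟩
  · exact (hf a b h).ne
  · intro hab
    have key : ∀ t, (adj a t = true ∨ adj b t = true) → H.Adj (f a) (f t) := by
      rintro t (ht | ht)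
      · exact hf a t ht
      · rw [hab]; exact hf b t ht
    exact hT.k4 (f a) (f u) (f v) (f w) (key u hu) (key v hv) (key w hw) (hf _ _ huv) (hf _ _ huw)
      (hf _ _ hvw)

lemma inj_of_cert {V : Type*} {H : SimpleGraph V} (hT : Tgt H) {f : Fin n → V}
    (hf : ∀ a b, adj a b = true → H.Adj (f a) (f b)) (L : List (Fin n)) (hL5 : L.length = 5)
    (hLp : L.Pairwise (D1 adj))
    (hc : ∀ a b, a ≠ b → D1 adj a b ∨ ∀ c ∈ L, adj a c = true ∨ adj b c = true) :
    Function.Injective f := by
  intro a b hab
  by_contra hne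
  rcases hc a b hne with h | h
  · exact h.ne hT hf hab
  · have h1 : (L.map f).Nodup := by
      rw [List.Nodup, List.pairwise_map]
      exact hLp.imp (fun {x y} hxy => hxy.ne hT hf)
    have h2 := hT.five (f a) (L.map f) h1 (by
      intro u hu
      obtain ⟨c, hc, rfl⟩ := List.mem_map.1 hu
      rcases h c hc with h | h
      · exact hf _ _ h
      · rw [hab]; exact hf _ _ h)
    rw [List.length_map, hL5] at h2
    omega

/-- The neighbours of a vertex. -/
def nbl (adj : Fin n → Fin n → Bool) (a : Fin n) : List (Fin n) := (List.finRange n).filter (adj a)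

lemma mem_nbl {a b : Fin n} : b ∈ nbl adj a ↔ adj a b = true := by
  unfold nbl
  rw [List.mem_filter]
  simp [List.mem_finRange]

lemma nbl_nodup (a : Fin n) : (nbl adj a).Nodup := (List.nodup_finRange n).filter _

/-- The graph is `3`-edge-connected. -/
def Conn3 (adj : Fin n → Fin n → Bool) : Prop :=
  ∀ B : Fin n → Bool, (∃ a, B a = true) → (∃ a, B a = false) →
    3 ≤ ((Finset.univ : Finset (Fin n × Fin n)).filter
      (fun p => adj p.1 p.2 = true ∧ B p.1 = true ∧ B p.2 = false)).card

/-- The image of a gadget: a set of vertices that can only be left through one edge at each of the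
two ports and that is 3-edge-connected. -/
structure GadIm {V : Type*} (H : SimpleGraph V) (A : Set V) (x y : V) : Prop where
  hx : x ∈ A
  hy : y ∈ A
  hxy : x ≠ y
  inner : ∀ v ∈ A, v ≠ x → v ≠ y → ∀ u, H.Adj v u → u ∈ A
  ext : ∀ v ∈ A, ∀ u u', H.Adj v u → H.Adj v u' → u ∉ A → u' ∉ A → u = u'
  conn : ∀ B : Set V, B ⊆ A → B.Nonempty → B ≠ A → ∀ e e' : V × V,
    ∃ b ∈ B, ∃ c ∈ A, c ∉ B ∧ H.Adj b c ∧ (b, c) ≠ e ∧ (b, c) ≠ e'

lemma gadIm_of {V : Type*} {H : SimpleGraph V} (hT : Tgt H) {f : Fin n → V}
    (hf : ∀ a b, adj a b = true → H.Adj (f a) (f b)) (hinj : Function.Injective f)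
    (x y : Fin n) (hxy : x ≠ y) (h3 : ∀ a, 3 ≤ (nbl adj a).length)
    (h4 : ∀ a, a ≠ x → a ≠ y → 4 ≤ (nbl adj a).length) (hc : Conn3 adj) :
    GadIm H (Set.range f) (f x) (f y) := by
  classical
  have nod : ∀ a, ((nbl adj a).map f).Nodup := fun a => (nbl_nodup a).map hinj
  have adm : ∀ a, ∀ u ∈ (nbl adj a).map f, H.Adj (f a) u := by
    intro a u hu
    obtain ⟨c, hc, rfl⟩ := List.mem_map.1 hu
    exact hf _ _ (mem_nbl.1 hc)
  have notin : ∀ a, ∀ u, u ∉ Set.range f → u ∉ (nbl adj a).map f := by
    intro a u hu h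
    obtain ⟨c, _, rfl⟩ := List.mem_map.1 h
    exact hu ⟨c, rfl⟩
  refine ⟨⟨x, rfl⟩, ⟨y, rfl⟩, fun h => hxy (hinj h), ?_, ?_, ?_⟩
  · rintro _ ⟨a, rfl⟩ hax hay u hu
    by_contra hn
    have h1 := hT.five (f a) (u :: (nbl adj a).map f) (List.nodup_cons.2 ⟨notin a u hn, nod a⟩)
      (by
        intro t ht
        rcases List.mem_cons.1 ht with rfl | ht
        · exact hu
        · exact adm a t ht)
    have h2 := h4 a (fun h => hax (by rw [h])) (fun h => hay (by rw [h]))
    simp only [List.length_cons, List.length_map] at h1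
    omega
  · rintro _ ⟨a, rfl⟩ u u' hu hu' hn hn'
    by_contra hne
    have h1 := hT.five (f a) (u :: u' :: (nbl adj a).map f)
      (List.nodup_cons.2 ⟨by
        intro h
        rcases List.mem_cons.1 h with h | h
        · exact hne h
        · exact notin a u hn h, List.nodup_cons.2 ⟨notin a u' hn', nod a⟩⟩)
      (by
        intro t ht
        rcases List.mem_cons.1 ht with rfl | ht
        · exact hu
        · rcases List.mem_cons.1 ht with rfl | ht
          · exact hu'
          · exact adm a t ht)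
    have h2 := h3 a
    simp only [List.length_cons, List.length_map] at h1
    omega
  · intro B hBA hB0 hBne e e'
    obtain ⟨b0, hb0⟩ := hB0
    obtain ⟨a0, rfl⟩ := hBA hb0
    obtain ⟨a1, ha1⟩ : ∃ a, f a ∉ B := by
      by_contra hall
      push Not at hall
      apply hBne
      apply Set.Subset.antisymm hBA
      rintro _ ⟨a, rfl⟩
      exact hall a
    have h5 := hc (fun a => decide (f a ∈ B)) ⟨a0, by simpa using hb0⟩ ⟨a1, by simpa using ha1⟩
    set F := (Finset.univ : Finset (Fin n × Fin n)).filter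
      (fun p => adj p.1 p.2 = true ∧ decide (f p.1 ∈ B) = true ∧ decide (f p.2 ∈ B) = false) with hF
    have h6 : ((F.image (fun p => (f p.1, f p.2))) \ {e, e'}).Nonempty := by
      rw [← Finset.card_pos]
      have h7 : (F.image (fun p => (f p.1, f p.2))).card = F.card := by
        apply Finset.card_image_of_injective
        rintro ⟨a, b⟩ ⟨c, d⟩ h
        simp only [Prod.mk.injEq] at h
        rw [hinj h.1, hinj h.2]
      have h8 := Finset.le_card_sdiff ({e, e'} : Finset (V × V)) (F.image (fun p => (f p.1, f p.2)))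
      have h9 : ({e, e'} : Finset (V × V)).card ≤ 2 := Finset.card_le_two
      omega
    obtain ⟨q, hq⟩ := h6
    rw [Finset.mem_sdiff, Finset.mem_image] at hq
    obtain ⟨⟨⟨b, c⟩, hbc, rfl⟩, hq2⟩ := hq
    rw [hF, Finset.mem_filter] at hbc
    obtain ⟨-, h10, h11, h12⟩ := hbc
    simp only [decide_eq_true_eq, decide_eq_false_iff_not] at h11 h12
    simp only [Finset.mem_insert, Finset.mem_singleton, not_or] at hq2
    exact ⟨f b, h11, f c, ⟨c, rfl⟩, h12, hf _ _ h10, hq2.1, hq2.2⟩

end cert

/-- Two gadget images that meet are equal. -/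
lemma GadIm.sub {V : Type*} {H : SimpleGraph V} {A A' : Set V} {x y x' y' : V}
    (h : GadIm H A x y) (h' : GadIm H A' x' y') (hm : (A ∩ A').Nonempty) : A ⊆ A' := by
  classical
  by_contra hns
  have hne : A ∩ A' ≠ A := fun h => hns (Set.inter_eq_left.1 h)
  -- the two possible exits of `A'`
  have hex : ∀ p : V, ∃ e : V × V, ∀ c, p ∈ A' → H.Adj p c → c ∉ A' → (p, c) = e := by
    intro p
    by_cases hc : ∃ c, p ∈ A' ∧ H.Adj p c ∧ c ∉ A'
    · obtain ⟨c, hp, hpc, hc⟩ := hc
      refine ⟨(p, c), ?_⟩
      intro c' _ hc' hn'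
      rw [h'.ext p hp c' c hc' hpc hn' hc]
    · refine ⟨(p, p), ?_⟩
      intro c hp hpc hc'
      exact absurd ⟨c, hp, hpc, hc'⟩ hc
  obtain ⟨e, he⟩ := hex x'
  obtain ⟨e', he'⟩ := hex y'
  obtain ⟨b, hb, c, hc, hcn, hbc, h1, h2⟩ := h.conn (A ∩ A') Set.inter_subset_left hm hne e e'
  have hcA : c ∉ A' := fun hcA => hcn ⟨hc, hcA⟩
  by_cases hbx : b = x'
  · subst hbx
    exact h1 (he c hb.2 hbc hcA)
  · by_cases hby : b = y'
    · subst hby
      exact h2 (he' c hb.2 hbc hcA)
    · exact hcA (h'.inner b hb.2 hbx hby c hbc)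

lemma GadIm.eq {V : Type*} {H : SimpleGraph V} {A A' : Set V} {x y x' y' : V}
    (h : GadIm H A x y) (h' : GadIm H A' x' y') (hm : (A ∩ A').Nonempty) : A = A' :=
  Set.Subset.antisymm (h.sub h' hm) (h'.sub h (by rwa [Set.inter_comm]))

/-- A chain of gadget images consists of disjoint sets. -/
lemma chain_disj {V : Type*} {H : SimpleGraph V} (m : ℕ) (A : ℕ → Set V) (x y : ℕ → V)
    (hG : ∀ i ≤ m, GadIm H (A i) (x i) (y i)) (hl : ∀ i < m, H.Adj (y i) (x (i + 1)))
    (h0 : ∀ i, 1 ≤ i → i ≤ m → A i ≠ A 0)
    (hs : ∀ i, 1 ≤ i → i < m → A i = A (i + 1) → y (i - 1) ∉ A i → False) :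
    ∀ j ≤ m, ∀ i < j, Disjoint (A i) (A j) := by
  intro j
  induction j using Nat.strong_induction_on with
  | _ j ih =>
    intro hj i hij
    by_contra hd
    rw [Set.not_disjoint_iff_nonempty_inter] at hd
    have heq := (hG i (by omega)).eq (hG j hj) hd
    have hi0 : i ≠ 0 := by
      rintro rfl
      exact h0 j (by omega) hj heq.symm
    -- all earlier sets are disjoint
    have hdis : ∀ a b, a < j → b < j → a ≠ b → Disjoint (A a) (A b) := by
      intro a b ha hb hab
      rcases Nat.lt_or_gt_of_ne hab with h | h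
      · exact ih b hb (by omega) a h
      · exact (ih a ha (by omega) b h).symm
    have hy' : y (i - 1) ∉ A i := by
      intro h
      exact Set.disjoint_left.1 (hdis (i - 1) i (by omega) hij (by omega)) (hG (i - 1) (by omega)).hy h
    rcases (by omega : j = i + 1 ∨ i + 1 < j) with rfl | hij1
    · exact hs i (by omega) (by omega) heq hy'
    · obtain ⟨k, rfl⟩ : ∃ k, j = k + 1 := ⟨j - 1, by omega⟩
      have hyk : y k ∉ A i := by
        intro h
        exact Set.disjoint_left.1 (hdis k i (by omega) (by omega) (by omega)) (hG k (by omega)).hy h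
      have hadj : H.Adj (x (k + 1)) (y k) := (hl k (by omega)).symm
      have hxk : x (k + 1) ∈ A i := by rw [heq]; exact (hG (k + 1) hj).hx
      by_cases h1 : x (k + 1) = x i
      · have h2 : H.Adj (x i) (y (i - 1)) := by
          have := (hl (i - 1) (by omega)).symm
          rwa [Nat.sub_add_cancel (by omega)] at this
        rw [h1] at hadj
        have h3 := (hG i (by omega)).ext (x i) (hG i (by omega)).hx _ _ hadj h2 hyk hy'
        refine Set.disjoint_left.1 (hdis k (i - 1) (by omega) (by omega) (by omega))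
          (hG k (by omega)).hy ?_
        rw [h3]
        exact (hG (i - 1) (by omega)).hy
      · by_cases h2 : x (k + 1) = y i
        · have h3 : H.Adj (y i) (x (i + 1)) := hl i (by omega)
          have hxi : x (i + 1) ∉ A i := by
            intro h
            exact Set.disjoint_left.1 (hdis (i + 1) i (by omega) (by omega) (by omega))
              (hG (i + 1) (by omega)).hx h
          rw [h2] at hadj
          have h4 := (hG i (by omega)).ext (y i) (hG i (by omega)).hy _ _ hadj h3 hyk hxi
          by_cases h5 : k = i + 1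
          · subst h5
            exact (hG (i + 1) (by omega)).hxy h4.symm
          · refine Set.disjoint_left.1 (hdis k (i + 1) (by omega) (by omega) h5)
              (hG k (by omega)).hy ?_
            rw [h4]
            exact (hG (i + 1) (by omega)).hx
        · exact hyk ((hG i (by omega)).inner _ hxk h1 h2 _ hadj)

lemma chain_card {V : Type*} [Finite V] {H : SimpleGraph V} (m : ℕ) (A : ℕ → Set V) (x y : ℕ → V)
    (hG : ∀ i ≤ m, GadIm H (A i) (x i) (y i)) (hl : ∀ i < m, H.Adj (y i) (x (i + 1)))
    (h0 : ∀ i, 1 ≤ i → i ≤ m → A i ≠ A 0)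
    (hs : ∀ i, 1 ≤ i → i < m → A i = A (i + 1) → y (i - 1) ∉ A i → False) :
    m + 1 ≤ Nat.card V := by
  have hd := chain_disj m A x y hG hl h0 hs
  have hinj : Function.Injective (fun i : Fin (m + 1) => x i) := by
    intro i j hij
    by_contra hne
    have hi := (hG i (by omega)).hx
    have hj := (hG j (by omega)).hx
    have hij' : x i = x j := hij
    rcases Nat.lt_or_gt_of_ne (fun h => hne (Fin.ext h)) with h | h
    · exact Set.disjoint_left.1 (hd j (by omega) i h) hi (by rw [hij']; exact hj)
    · exact Set.disjoint_left.1 (hd i (by omega) j h) hj (by rw [← hij']; exact hi)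
  have := Finite.card_le_of_embedding ⟨_, hinj⟩
  simpa using this

end Pool.Agent.MP1d59
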