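import Mathlib

/-!
The Paley graph on 17 vertices and the joins of a complete graph with the complement of the
Ramsey circulant graph on 13 vertices.
-/

set_option autoImplicit false

namespace Pool.Agent.MP1d59

open SimpleGraph Finset

/-- the Paley graph on 17 vertices -/
def P17 : SimpleGraph (Fin 17) where
  Adj x y := (x - y).val ∈ [1, 2, 4, 8, 9, 13, 15, 16]
  symm := ⟨by decide⟩
  loopless := ⟨by decide⟩

instance : DecidableRel P17.Adj := fun x y =>
  inferInstanceAs (Decidable ((x - y).val ∈ [1, 2, 4, 8, 9, 13, 15, 16]))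

/-- the complement of the circulant graph with connection set `1, 5` on 13 vertices -/
def Q13 : SimpleGraph (Fin 13) where
  Adj x y := (x - y).val ∈ [2, 3, 4, 6, 7, 9, 10, 11]
  symm := ⟨by decide⟩
  loopless := ⟨by decide⟩

instance : DecidableRel Q13.Adj := fun x y =>
  inferInstanceAs (Decidable ((x - y).val ∈ [2, 3, 4, 6, 7, 9, 10, 11]))

theorem P17_deg (v : Fin 17) : (P17.neighborSet v).ncard ≤ 8 := by
  classical
  have h : ∀ v : Fin 17, (Finset.univ.filter (fun u => P17.Adj v u)).card ≤ 8 := by decide +kernel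
  have e : P17.neighborSet v
      = ((Finset.univ.filter (fun u => P17.Adj v u) : Finset (Fin 17)) : Set (Fin 17)) := by
    ext u; simp
  rw [e, Set.ncard_coe_finset]
  exact h v

theorem Q13_deg (v : Fin 13) : (Q13.neighborSet v).ncard ≤ 8 := by
  classical
  have h : ∀ v : Fin 13, (Finset.univ.filter (fun u => Q13.Adj v u)).card ≤ 8 := by decide +kernel
  have e : Q13.neighborSet v
      = ((Finset.univ.filter (fun u => Q13.Adj v u) : Finset (Fin 13)) : Set (Fin 13)) := by
    ext u; simp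
  rw [e, Set.ncard_coe_finset]
  exact h v

lemma P17_clique : ∀ a b, P17.Adj a b → ∀ c, P17.Adj a c → P17.Adj b c →
    ∀ d, P17.Adj a d → P17.Adj b d → ¬ P17.Adj c d := by decide +kernel

lemma P17_indep : ∀ a b, (a ≠ b ∧ ¬ P17.Adj a b) → ∀ c, (a ≠ c ∧ b ≠ c ∧ ¬ P17.Adj a c ∧
    ¬ P17.Adj b c) → ∀ d, (a ≠ d ∧ b ≠ d ∧ c ≠ d ∧ ¬ P17.Adj a d ∧ ¬ P17.Adj b d) →
    P17.Adj c d := by decide +kernel

lemma Q13_indep : ∀ a b, a ≠ b → ¬ Q13.Adj a b → ∀ c, a ≠ c → b ≠ c → ¬ Q13.Adj a c →
    Q13.Adj b c := by decide +kernel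

lemma Q13_clique : ∀ a b, Q13.Adj a b → ∀ c, Q13.Adj a c → Q13.Adj b c →
    ∀ d, Q13.Adj a d → Q13.Adj b d → Q13.Adj c d →
    ∀ e, Q13.Adj a e → Q13.Adj b e → Q13.Adj c e → ¬ Q13.Adj d e := by decide +kernel

theorem P17_no_four : IsEmpty ((⊤ : SimpleGraph (Fin 4)) →g P17) := by
  constructor
  intro φ
  have h : ∀ i j : Fin 4, i ≠ j → P17.Adj (φ i) (φ j) := fun i j hij => φ.map_adj hij
  exact P17_clique (φ 0) (φ 1) (h _ _ (by decide)) (φ 2) (h _ _ (by decide)) (h _ _ (by decide))
    (φ 3) (h _ _ (by decide)) (h _ _ (by decide)) (h _ _ (by decide))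

theorem P17_not_five : IsEmpty (P17 →g (⊤ : SimpleGraph (Fin 5))) := by
  constructor
  intro φ
  obtain ⟨k, hk⟩ := Fintype.exists_lt_card_fiber_of_mul_lt_card (f := fun x : Fin 17 => φ x)
    (n := 3) (by simp)
  rw [← Nat.succ_le_iff] at hk
  obtain ⟨s, hs, hcard⟩ := Finset.exists_subset_card_eq hk
  obtain ⟨a, b, c, d, hab, hac, had, hbc, hbd, hcd, rfl⟩ : ∃ a b c d, a ≠ b ∧ a ≠ c ∧ a ≠ d ∧ b ≠ c ∧
      b ≠ d ∧ c ≠ d ∧ s = {a, b, c, d} := by
    have := Finset.card_eq_succ.mp hcard
    obtain ⟨a, t, hat, rfl, ht⟩ := this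
    obtain ⟨b, c, d, hbc, hbd, hcd, rfl⟩ := Finset.card_eq_three.mp ht
    simp only [mem_insert, mem_singleton, not_or] at hat
    exact ⟨a, b, c, d, hat.1, hat.2.1, hat.2.2, hbc, hbd, hcd, rfl⟩
  have hm : ∀ x ∈ ({a, b, c, d} : Finset (Fin 17)), φ x = k := fun x hx => by
    have := hs hx
    simpa using this
  have hn : ∀ x ∈ ({a, b, c, d} : Finset (Fin 17)), ∀ y ∈ ({a, b, c, d} : Finset (Fin 17)),
      ¬ P17.Adj x y := by
    intro x hx y hy hxy
    exact (φ.map_adj hxy : φ x ≠ φ y) ((hm x hx).trans (hm y hy).symm)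
  exact hn c (by simp) d (by simp) (P17_indep a b ⟨hab, hn a (by simp) b (by simp)⟩ c ⟨hac, hbc,
    hn a (by simp) c (by simp), hn b (by simp) c (by simp)⟩ d ⟨had, hbd, hcd,
    hn a (by simp) d (by simp), hn b (by simp) d (by simp)⟩)

/-- the join of a complete graph on `a` vertices with `Q13` -/
def J (a : ℕ) : SimpleGraph (Fin a ⊕ Fin 13) where
  Adj x y := match x, y with
    | Sum.inl i, Sum.inl j => i ≠ j
    | Sum.inl _, Sum.inr _ => True
    | Sum.inr _, Sum.inl _ => True
    | Sum.inr i, Sum.inr j => Q13.Adj i j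
  symm := ⟨by
    rintro (i | i) (j | j) h
    · exact Ne.symm h
    · trivial
    · trivial
    · exact (SimpleGraph.Adj.symm (G := Q13) h)⟩
  loopless := ⟨by
    rintro (i | i) h
    · exact h rfl
    · exact Q13.loopless.irrefl i h⟩

theorem J_deg (a : ℕ) (v : Fin a ⊕ Fin 13) : ((J a).neighborSet v).ncard ≤ a + 12 := by
  have h1 : (J a).neighborSet v ⊆ {v}ᶜ := by
    intro x hx hxv
    rw [Set.mem_singleton_iff] at hxv
    subst hxv
    exact (J a).loopless.irrefl x hx
  have h2 := Set.ncard_le_ncard h1 (Set.toFinite _)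
  rw [Set.ncard_compl] at h2
  simp at h2
  omega

theorem J_zero_deg (v : Fin 0 ⊕ Fin 13) : ((J 0).neighborSet v).ncard ≤ 8 := by
  rcases v with i | i
  · exact i.elim0
  · have h1 : (J 0).neighborSet (Sum.inr i) ⊆ Sum.inr '' (Q13.neighborSet i) := by
      rintro (x | x) hx
      · exact x.elim0
      · exact ⟨x, hx, rfl⟩
    have h2 := Set.ncard_le_ncard h1 (Set.toFinite _)
    exact (h2.trans (Set.ncard_image_le (Set.toFinite _))).trans (Q13_deg i)

/-- no clique with `a + 5` vertices -/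
theorem J_no_clique (a : ℕ) : IsEmpty ((⊤ : SimpleGraph (Fin (a + 5))) →g J a) := by
  classical
  constructor
  intro φ
  have hadj : ∀ i j : Fin (a + 5), i ≠ j → (J a).Adj (φ i) (φ j) := fun i j hij => φ.map_adj hij
  have hinj : Function.Injective φ := by
    intro i j h
    by_contra hne
    have := hadj i j hne
    rw [h] at this
    exact this.ne rfl
  let R : Finset (Fin 13) := Finset.univ.filter (fun x => ∃ i, φ i = Sum.inr x)
  have hR : 5 ≤ R.card := by
    have h1 : (Finset.univ.image φ) ⊆ (Finset.univ.image (Sum.inl : Fin a → Fin a ⊕ Fin 13)) ∪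
        (R.image (Sum.inr : Fin 13 → Fin a ⊕ Fin 13)) := by
      intro x hx
      rw [mem_image] at hx
      obtain ⟨i, _, rfl⟩ := hx
      rw [mem_union, mem_image, mem_image]
      rcases h : φ i with y | y
      · left; exact ⟨y, mem_univ _, rfl⟩
      · right; exact ⟨y, by simp only [R, mem_filter, mem_univ, true_and]; exact ⟨i, h⟩, rfl⟩
    have h2 := card_le_card h1
    rw [card_image_of_injective _ hinj] at h2
    have h3 := h2.trans (card_union_le _ _)
    rw [card_image_of_injective _ Sum.inl_injective, card_image_of_injective _ Sum.inr_injective] at h3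
    simp at h3
    omega
  obtain ⟨s, hs, hcard⟩ := Finset.exists_subset_card_eq hR
  have hs' : ∀ x ∈ s, ∀ y ∈ s, x ≠ y → Q13.Adj x y := by
    intro x hx y hy hxy
    have hx' := hs hx
    have hy' := hs hy
    simp only [R, mem_filter, mem_univ, true_and] at hx' hy'
    obtain ⟨i, hi⟩ := hx'
    obtain ⟨j, hj⟩ := hy'
    have hij : i ≠ j := by
      rintro rfl
      rw [hi] at hj
      exact hxy (Sum.inr_injective hj)
    have := hadj i j hij
    rw [hi, hj] at this
    exact this
  obtain ⟨a', t, hat, rfl, ht⟩ := Finset.card_eq_succ.mp hcard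
  obtain ⟨b', t', hbt, rfl, ht'⟩ := Finset.card_eq_succ.mp ht
  obtain ⟨c, d, e, hcd, hce, hde, rfl⟩ := Finset.card_eq_three.mp ht'
  simp only [mem_insert, mem_singleton, not_or] at hat hbt
  exact Q13_clique a' b' (hs' _ (by simp) _ (by simp) hat.1)
    c (hs' _ (by simp) _ (by simp) hat.2.1) (hs' _ (by simp) _ (by simp) hbt.1)
    d (hs' _ (by simp) _ (by simp) hat.2.2.1) (hs' _ (by simp) _ (by simp) hbt.2.1)
    (hs' _ (by simp) _ (by simp) hcd)
    e (hs' _ (by simp) _ (by simp) hat.2.2.2) (hs' _ (by simp) _ (by simp) hbt.2.2)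
    (hs' _ (by simp) _ (by simp) hce) (hs' _ (by simp) _ (by simp) hde)

/-- not `(a + 6)`-colourable -/
theorem J_not_col (a : ℕ) : IsEmpty (J a →g (⊤ : SimpleGraph (Fin (a + 6)))) := by
  classical
  constructor
  intro φ
  have hadj : ∀ x y, (J a).Adj x y → φ x ≠ φ y := fun x y hxy => φ.map_adj hxy
  let A : Finset (Fin (a + 6)) := Finset.univ.image (fun i : Fin a => φ (Sum.inl i))
  have hA : A.card = a := by
    rw [card_image_of_injective]
    · simp
    · intro i j h
      by_contra hne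
      exact hadj (Sum.inl i) (Sum.inl j) hne h
  have hB : ((Finset.univ : Finset (Fin (a + 6))) \ A).card = 6 := by
    rw [card_sdiff_of_subset (subset_univ _), hA]; simp
  obtain ⟨k, hk, hk2⟩ := Finset.exists_lt_card_fiber_of_mul_lt_card_of_maps_to
    (s := (Finset.univ : Finset (Fin 13))) (t := Finset.univ \ A) (f := fun x => φ (Sum.inr x))
    (n := 2) (by
      intro x _
      simp only [mem_sdiff, mem_univ, true_and, A, mem_image, not_exists]
      intro i h
      exact hadj (Sum.inl i) (Sum.inr x) trivial h) (by rw [hB]; simp)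
  rw [← Nat.succ_le_iff] at hk2
  obtain ⟨s, hs, hcard⟩ := Finset.exists_subset_card_eq hk2
  obtain ⟨x, y, z, hxy, hxz, hyz, rfl⟩ := Finset.card_eq_three.mp hcard
  have hm : ∀ t ∈ ({x, y, z} : Finset (Fin 13)), φ (Sum.inr t) = k := fun t ht => by
    have := hs ht
    simpa using this
  have hn : ∀ s ∈ ({x, y, z} : Finset (Fin 13)), ∀ t ∈ ({x, y, z} : Finset (Fin 13)),
      ¬ Q13.Adj s t := by
    intro s hs t ht hst
    exact hadj (Sum.inr s) (Sum.inr t) hst ((hm s hs).trans (hm t ht).symm)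
  exact hn y (by simp) z (by simp) (Q13_indep x y hxy (hn x (by simp) y (by simp)) z hxz hyz
    (hn x (by simp) z (by simp)))

end Pool.Agent.MP1d59
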