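import Pool.Agent.Lib.MP_1d59ee_co.TriFree
import Pool.Agent.Lib.MP_1d59ee_co.C29
import Pool.Agent.Lib.MP_1d59ee_co.Near

/-!
Graphs whose clique number is not close to the degree bound.
-/

set_option autoImplicit false

namespace Pool.Agent.MP1d59

open SimpleGraph

/-- The basic alternative: with `m` the clique number of `G`, either the complete graph on `m + 1`
vertices or a graph without `m`-clique that is not `(m+1)`-colourable is incomparable with `G`. -/
lemma alt {V : Type} (d m : ℕ) (G : SimpleGraph V)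
    (hm : Nonempty ((⊤ : SimpleGraph (Fin m)) →g G))
    (hm1 : IsEmpty ((⊤ : SimpleGraph (Fin (m + 1))) →g G)) (hmd : m ≤ d)
    {W : Type} [Finite W] (H : SimpleGraph W) (hH : ∀ w, (H.neighborSet w).ncard ≤ d)
    (h1 : IsEmpty ((⊤ : SimpleGraph (Fin m)) →g H))
    (h2 : IsEmpty (H →g (⊤ : SimpleGraph (Fin (m + 1))))) :
    ∃ (W : Type) (_ : Finite W) (H : SimpleGraph W),
      (∀ w, (H.neighborSet w).ncard ≤ d) ∧ IsEmpty (G →g H) ∧ IsEmpty (H →g G) := by
  by_cases h : IsEmpty (G →g (⊤ : SimpleGraph (Fin (m + 1))))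
  · exact ⟨Fin (m + 1), inferInstance, ⊤, fun w => (top_deg m w).trans hmd, h, hm1⟩
  · rw [not_isEmpty_iff] at h
    obtain ⟨ψ⟩ := h
    obtain ⟨c⟩ := hm
    exact ⟨W, inferInstance, H, hH, ⟨fun φ => h1.false (φ.comp c)⟩, ⟨fun φ => h2.false (ψ.comp φ)⟩⟩

/-- Graphs containing a triangle with clique number at most `max 5 (d - 7)`. -/
theorem main_near {V : Type} (d : ℕ) (hd : 8 ≤ d) (G : SimpleGraph V)
    (h3 : Nonempty ((⊤ : SimpleGraph (Fin 3)) →g G))
    (hk : IsEmpty ((⊤ : SimpleGraph (Fin (max 6 (d - 6)))) →g G)) :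
    ∃ (W : Type) (_ : Finite W) (H : SimpleGraph W),
      (∀ w, (H.neighborSet w).ncard ≤ d) ∧ IsEmpty (G →g H) ∧ IsEmpty (H →g G) := by
  classical
  have hex : ∃ n, IsEmpty ((⊤ : SimpleGraph (Fin n)) →g G) := ⟨_, hk⟩
  set n := Nat.find hex with hn
  have hn1 : IsEmpty ((⊤ : SimpleGraph (Fin n)) →g G) := Nat.find_spec hex
  have hn2 : ∀ j, j < n → Nonempty ((⊤ : SimpleGraph (Fin j)) →g G) := by
    intro j hj
    have := Nat.find_min hex hj
    rwa [not_isEmpty_iff] at this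
  have hmono : ∀ i j, i ≤ j → Nonempty ((⊤ : SimpleGraph (Fin j)) →g G) →
      Nonempty ((⊤ : SimpleGraph (Fin i)) →g G) := by
    rintro i j hij ⟨φ⟩
    exact ⟨φ.comp ⟨Fin.castLE hij, fun {a b} hab => by
      intro h
      exact hab (Fin.castLE_injective hij h)⟩⟩
  have hn3 : 3 < n := by
    by_contra hle
    push Not at hle
    have := hmono n 3 hle h3
    rw [← not_isEmpty_iff] at this
    exact this hn1
  have hn4 : n ≤ max 6 (d - 6) := Nat.find_min' hex hk
  obtain ⟨m, hm⟩ : ∃ m, n = m + 1 := ⟨n - 1, by omega⟩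
  rw [hm] at hn1 hn3 hn4
  have hm' := hn2 m (by omega)
  rcases (by omega : m = 3 ∨ m = 4 ∨ 5 ≤ m) with rfl | rfl | h5
  · exact alt d 3 G hm' hn1 (by omega) C29 (fun w => (C29_deg w).trans hd) C29_no_tri C29_not_four
  · exact alt d 4 G hm' hn1 (by omega) P17 (fun w => (P17_deg w).trans hd) P17_no_four P17_not_five
  · obtain ⟨a, rfl⟩ : ∃ a, m = a + 5 := ⟨m - 5, by omega⟩
    refine alt d (a + 5) G hm' hn1 (by omega) (J a) ?_ (J_no_clique a) (J_not_col a)
    intro w
    rcases Nat.eq_zero_or_pos a with rfl | ha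
    · exact (J_zero_deg w).trans hd
    · exact (J_deg a w).trans (by omega)

end Pool.Agent.MP1d59
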