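import Mathlib

/-!
Generalized Petersen graphs `GP(p,2)`: a homomorphism into a small triangle-free graph of maximum
degree at most three does not exist once `p` is a large prime.
-/

set_option autoImplicit false

namespace Pool.Agent.MP1d59

open SimpleGraph

section Local

variable {T : Type*} (X : SimpleGraph T)

/-- The degree hypothesis in the form used below. -/
def Deg3 : Prop := ∀ x a b c y, X.Adj x a → X.Adj x b → X.Adj x c → a ≠ b → a ≠ c → b ≠ c →
  X.Adj x y → y = a ∨ y = b ∨ y = c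

def TriFree : Prop := ∀ a b c, X.Adj a b → X.Adj b c → X.Adj a c → False

/-- A ladder of generalized Petersen type in `X`. -/
structure Lad (U V : ℕ → T) : Prop where
  hU : ∀ k, X.Adj (U k) (U (k + 1))
  hS : ∀ k, X.Adj (U k) (V k)
  hV : ∀ k, X.Adj (V k) (V (k + 2))

variable {X} (hd : Deg3 X) (ht : TriFree X) {U V : ℕ → T} (h : Lad X U V)

include ht h

lemma Lad.uu (k : ℕ) : U k ≠ U (k + 2) := by
  intro e
  exact ht (U (k+2)) (V (k+2)) (V k) (h.hS (k+2)) (h.hV k).symm (e ▸ h.hS k)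

lemma Lad.uv (k : ℕ) : U (k + 1) ≠ V k := by
  intro e
  have h1 := h.hU (k+1)
  rw [e] at h1
  exact ht (V k) (U (k+2)) (V (k+2)) h1 (h.hS (k+2)) (h.hV k)

lemma Lad.vu (k : ℕ) : V (k + 3) ≠ U (k + 2) := by
  intro e
  -- triangle V(k+3)=U(k+2), U(k+1), V(k+1)
  have h1 := h.hU (k+1)
  have h2 := h.hV (k+1)
  have h3 := h.hS (k+1)
  rw [← e] at h1
  exact ht (U (k+1)) (V (k+3)) (V (k+1)) h1 h2.symm h3

lemma Lad.vu' (k : ℕ) : V (k + 2) ≠ U (k + 1) := by
  intro e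
  have h1 := h.hU k
  have h2 := h.hV k
  have h3 := h.hS k
  rw [← e] at h1
  exact ht (U k) (V (k+2)) (V k) h1 h2.symm h3

lemma Lad.uv2 (k : ℕ) : U k ≠ V (k + 2) := by
  intro e
  have h1 := h.hS (k+2)
  rw [← e] at h1
  exact ht (U k) (U (k+1)) (U (k+2)) (h.hU k) (h.hU (k+1)) h1.symm

lemma Lad.vu2 (k : ℕ) : V k ≠ U (k + 2) := by
  intro e
  have h1 := h.hS k
  rw [e] at h1
  exact ht (U k) (U (k+1)) (U (k+2)) (h.hU k) (h.hU (k+1)) h1

lemma Lad.u3 (k : ℕ) : U k ≠ U (k + 3) := by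
  intro e
  have h1 := h.hU (k+2)
  rw [← e] at h1
  exact ht (U k) (U (k+1)) (U (k+2)) (h.hU k) (h.hU (k+1)) h1.symm

lemma Lad.vv (k : ℕ) : V k ≠ V (k + 1) := by
  intro e
  have h1 := h.hS (k+1)
  rw [← e] at h1
  exact ht (U k) (U (k+1)) (V k) (h.hU k) h1 (h.hS k)

include hd

lemma Lad.nU (k : ℕ) {y : T} (hy : X.Adj (U (k+2)) y) : y = U (k+1) ∨ y = U (k+3) ∨ y = V (k+2) :=
  hd (U (k+2)) (U (k+1)) (U (k+3)) (V (k+2)) y (h.hU (k+1)).symm (h.hU (k+2)) (h.hS (k+2))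
    (h.uu ht (k+1)) (h.vu' ht k).symm (h.uv ht (k+2)) hy

/-- The key local fact: `V 1` and `U 4` are not adjacent. -/
lemma Lad.key : ¬ X.Adj (V 1) (U 4) := by
  intro hb
  -- neighbours of V 1
  have nV1 : ∀ y, X.Adj (V 1) y → y = U 1 ∨ y = V 3 ∨ y = U 4 := fun y hy =>
    hd (V 1) (U 1) (V 3) (U 4) y (h.hS 1).symm (h.hV 1) hb (h.uv2 ht 1) (h.u3 ht 1)
      (h.uv ht 3).symm hy
  rcases h.nU hd ht 2 (y := V 1) hb.symm with e | e | e
  · exact h.vu2 ht 1 e
  · -- V 1 = U 5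
    have e : V 1 = U 5 := e
    have hV5 := nV1 (V 5) (by rw [e]; exact h.hS 5)
    have hU6 := nV1 (U 6) (by rw [e]; exact h.hU 5)
    have e5 : V 5 = U 1 := by
      rcases hV5 with e' | e' | e'
      · exact e'
      · exact absurd e'.symm (h.hV 3).ne
      · exact absurd e' (h.vu' ht 3)
    have e6 : U 6 = V 3 := by
      rcases hU6 with e' | e' | e'
      · exact absurd (e'.trans e5.symm) (h.uv ht 5)
      · exact e'
      · exact absurd e'.symm (h.uu ht 4)
    have nV3 : ∀ y, X.Adj (V 3) y → y = U 3 ∨ y = U 5 ∨ y = U 1 := fun y hy =>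
      hd (V 3) (U 3) (U 5) (U 1) y (h.hS 3).symm (by rw [← e]; exact (h.hV 1).symm)
        (by rw [← e5]; exact h.hV 3) (h.uu ht 3) (h.uu ht 1).symm
        (by
          intro e'
          have := h.hS 1
          rw [e, e'] at this
          exact this.ne rfl) hy
    rcases nV3 (V 6) (by rw [← e6]; exact h.hS 6) with e' | e' | e'
    · -- V 6 = U 3
      have h1 := h.hV 4
      have h1 : X.Adj (V 4) (V 6) := h1
      rw [e'] at h1
      exact ht (U 3) (U 4) (V 4) (h.hU 3) (h.hS 4) h1.symm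
    · exact h.vu' ht 4 e'
    · -- V 6 = U 1 = V 5
      exact h.vv ht 5 (e5.trans e'.symm)
  · -- V 1 = V 4
    have e : V 1 = V 4 := e
    rcases nV1 (V 2) (by rw [e]; exact (h.hV 2).symm) with e' | e' | e'
    · exact h.vu' ht 0 e'
    · exact h.vv ht 2 e'
    · exact h.vu2 ht 2 e'

end Local

/-- determinism -/
lemma Lad.det {T : Type*} {X : SimpleGraph T} (hd : Deg3 X) (ht : TriFree X)
    {U V U' V' : ℕ → T} (h : Lad X U V) (h' : Lad X U' V')
    (e1 : U 1 = U' 1) (e2 : U 2 = U' 2) (e3 : V 1 = V' 1) (e4 : V 2 = V' 2) :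
    U 3 = U' 3 ∧ V 3 = V' 3 := by
  have a : U 3 = U' 3 := by
    have h1 : X.Adj (U' 2) (U 3) := by rw [← e2]; exact h.hU 2
    rcases h'.nU hd ht 0 h1 with e | e | e
    · exact absurd (e1.trans e.symm) (h.uu ht 1)
    · exact e
    · exact absurd (e.trans e4.symm) (h.uv ht 2)
  refine ⟨a, ?_⟩
  have h1 : X.Adj (U' 3) (V 3) := by rw [← a]; exact h.hS 3
  rcases h'.nU hd ht 1 h1 with e | e | e
  · exact absurd (e.trans e2.symm) (h.vu' ht 1)
  · exfalso
    have h2 := h.hV 1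
    have h2 : X.Adj (V 1) (V 3) := h2
    rw [e, e3] at h2
    exact h'.key hd ht h2
  · exact e

end Pool.Agent.MP1d59
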