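import Pool.Agent.Lib.MP_1d59ee_co.GP

/-!
No homomorphism from `GP(p,2)`, `p` a large prime, to a small triangle-free graph of maximum degree
at most three.
-/

set_option autoImplicit false

namespace Pool.Agent.MP1d59

open SimpleGraph

lemma deg3_of_ncard {T : Type*} [Finite T] {X : SimpleGraph T}
    (h : ∀ x, (X.neighborSet x).ncard ≤ 3) : Deg3 X := by
  intro x a b c y ha hb hc hab hac hbc hy
  by_contra hcon
  push Not at hcon
  obtain ⟨h1, h2, h3⟩ := hcon
  have hs : ({y, a, b, c} : Set T) ⊆ X.neighborSet x := by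
    intro z hz
    simp only [Set.mem_insert_iff, Set.mem_singleton_iff] at hz
    rcases hz with rfl | rfl | rfl | rfl <;> assumption
  have h4 := Set.ncard_le_ncard hs (Set.toFinite _)
  have h5 : ({y, a, b, c} : Set T).ncard = 4 := by
    rw [Set.ncard_insert_of_notMem (by simp [h1, h2, h3]),
      Set.ncard_insert_of_notMem (by simp [hab, hac]), Set.ncard_pair hbc]
  have := h x
  omega

lemma GP_no_hom {p : ℕ} [Fact p.Prime] (hp : 5 ≤ p) {T : Type*} [Finite T] (X : SimpleGraph T)
    (hd : ∀ x, (X.neighborSet x).ncard ≤ 3) (ht : TriFree X) (hc : Nat.card T ^ 4 < p) :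
    IsEmpty (GP p →g X) := by
  constructor
  intro φ
  have hd' := deg3_of_ncard hd
  haveI : NeZero p := ⟨by omega⟩
  -- the ladder starting at `a`
  let U : ZMod p → ℕ → T := fun a t => φ (a + (t : ZMod p), false)
  let V : ZMod p → ℕ → T := fun a t => φ (a + (t : ZMod p), true)
  have hL : ∀ a, Lad X (U a) (V a) := by
    intro a
    refine ⟨fun k => ?_, fun k => ?_, fun k => ?_⟩
    · have := φ.map_adj (GP_step hp 0 (a + (k : ZMod p), false))
      simpa [step, mv, nb, U, add_assoc] using this
    · have := φ.map_adj (GP_step hp 2 (a + (k : ZMod p), false))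
      simpa [step, mv, nb, U, V, add_assoc] using this
    · have := φ.map_adj (GP_step hp 0 (a + (k : ZMod p), true))
      simpa [step, mv, nb, V, add_assoc] using this
  let s : ZMod p → T × T × T × T := fun a => (U a 1, U a 2, V a 1, V a 2)
  have hcard : Nat.card (T × T × T × T) < Nat.card (ZMod p) := by
    simp only [Nat.card_prod, Nat.card_zmod]
    calc Nat.card T * (Nat.card T * (Nat.card T * Nat.card T)) = Nat.card T ^ 4 := by ring
      _ < p := hc
  obtain ⟨a, b, hab, hs⟩ : ∃ a b, a ≠ b ∧ s a = s b := by
    by_contra hcon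
    push Not at hcon
    have hinj : Function.Injective s := fun a b h => by
      by_contra hne
      exact hcon a b hne h
    have := Nat.card_le_card_of_injective s hinj
    omega
  have hshift : ∀ (c : ZMod p) (t : ℕ), U (c + 1) t = U c (t + 1) ∧ V (c + 1) t = V c (t + 1) := by
    intro c t
    constructor
    · simp only [U]; congr 2; push_cast; ring
    · simp only [V]; congr 2; push_cast; ring
  have hstep : ∀ c d, s c = s d → s (c + 1) = s (d + 1) := by
    intro c d h
    simp only [s, Prod.mk.injEq] at h ⊢
    obtain ⟨h1, h2, h3, h4⟩ := h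
    obtain ⟨h5, h6⟩ := Lad.det hd' ht (hL c) (hL d) h1 h2 h3 h4
    rw [(hshift c 1).1, (hshift c 2).1, (hshift c 1).2, (hshift c 2).2,
      (hshift d 1).1, (hshift d 2).1, (hshift d 1).2, (hshift d 2).2]
    exact ⟨h2, h5, h4, h6⟩
  have hadd : ∀ t : ℕ, s (a + t) = s (b + t) := by
    intro t
    induction t with
    | zero => simpa using hs
    | succ t ih =>
      have := hstep _ _ ih
      push_cast
      rw [← add_assoc, ← add_assoc]
      exact this
  have hper : ∀ x : ZMod p, s x = s (x + (b - a)) := by
    intro x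
    have := hadd (x - a).val
    rw [ZMod.natCast_val, ZMod.cast_id] at this
    have e1 : a + (x - a) = x := by ring
    have e2 : b + (x - a) = x + (b - a) := by ring
    rwa [e1, e2] at this
  have hper2 : ∀ (m : ℕ) (x : ZMod p), s x = s (x + m * (b - a)) := by
    intro m
    induction m with
    | zero => intro x; simp
    | succ m ih =>
      intro x
      rw [ih x, hper (x + m * (b - a))]
      congr 1
      push_cast
      ring
  have hne : b - a ≠ 0 := sub_ne_zero.mpr (Ne.symm hab)
  have h1 := hper2 ((b - a)⁻¹).val 0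
  rw [ZMod.natCast_val, ZMod.cast_id, inv_mul_cancel₀ hne, zero_add] at h1
  have h2 : U 0 1 = U 1 1 := congrArg Prod.fst h1
  have h3 := (hL 0).hU 1
  have h4 := (hshift 0 1).1
  rw [zero_add] at h4
  rw [← h4, ← h2] at h3
  exact h3.ne rfl

end Pool.Agent.MP1d59
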