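import Pool.Agent.Lib.MP_1d59ee_co.Gad

/-!
The square of the seven-cycle, the gadget obtained by deleting an edge, and a gadget on eight
vertices.
-/

set_option autoImplicit false

namespace Pool.Agent.MP1d59

open SimpleGraph

/-- The square of the seven-cycle. -/
def x7 (a b : Fin 7) : Bool :=
  b - a = 1 || b - a = 2 || b - a = 5 || b - a = 6

/-- The square of the seven-cycle minus one edge. -/
def w7 (a b : Fin 7) : Bool := x7 a b && !(a = 0 && b = 2) && !(a = 2 && b = 0)

/-- The edges of the gadget on eight vertices. -/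
def e8 : List (Fin 8 × Fin 8) := [(0, 3), (0, 4), (0, 7), (1, 2), (1, 3), (1, 5), (1, 6), (2, 4),
  (2, 5), (3, 4), (3, 6), (4, 7), (5, 6), (5, 7), (6, 7)]

/-- The gadget on eight vertices. -/
def w8 (a b : Fin 8) : Bool := e8.contains (a, b) || e8.contains (b, a)

lemma x7_symm : ∀ a b, x7 a b = x7 b a := by decide
lemma w7_symm : ∀ a b, w7 a b = w7 b a := by decide
lemma w8_symm : ∀ a b, w8 a b = w8 b a := by decide

lemma x7_D1 : ∀ a b, a ≠ b → D1 x7 a b := by decide +kernel

lemma w7_cert : ∀ a b, a ≠ b → D1 w7 a b ∨ ∀ c ∈ ([0, 1, 2, 4, 5] : List (Fin 7)),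
    w7 a c = true ∨ w7 b c = true := by decide +kernel

lemma w7_pair : ([0, 1, 2, 4, 5] : List (Fin 7)).Pairwise (D1 w7) := by decide +kernel

lemma w8_cert : ∀ a b, a ≠ b → D1 w8 a b ∨ ∀ c ∈ ([1, 3, 4, 5, 7] : List (Fin 8)),
    w8 a c = true ∨ w8 b c = true := by decide +kernel

lemma w8_pair : ([1, 3, 4, 5, 7] : List (Fin 8)).Pairwise (D1 w8) := by decide +kernel

lemma w7_conn : Conn3 w7 := by
  have key : ∀ b0 b1 b2 b3 b4 b5 b6 : Bool,
      (∃ a, (![b0, b1, b2, b3, b4, b5, b6] : Fin 7 → Bool) a = true) →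
      (∃ a, (![b0, b1, b2, b3, b4, b5, b6] : Fin 7 → Bool) a = false) →
      3 ≤ ((Finset.univ : Finset (Fin 7 × Fin 7)).filter
        (fun p => w7 p.1 p.2 = true ∧ (![b0, b1, b2, b3, b4, b5, b6] : Fin 7 → Bool) p.1 = true ∧
          (![b0, b1, b2, b3, b4, b5, b6] : Fin 7 → Bool) p.2 = false)).card := by
    decide +kernel
  intro B
  have hB : B = ![B 0, B 1, B 2, B 3, B 4, B 5, B 6] := by
    ext i; fin_cases i <;> rfl
  rw [hB]
  exact key _ _ _ _ _ _ _

lemma w8_conn : Conn3 w8 := by
  have key : ∀ b0 b1 b2 b3 b4 b5 b6 b7 : Bool,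
      (∃ a, (![b0, b1, b2, b3, b4, b5, b6, b7] : Fin 8 → Bool) a = true) →
      (∃ a, (![b0, b1, b2, b3, b4, b5, b6, b7] : Fin 8 → Bool) a = false) →
      3 ≤ ((Finset.univ : Finset (Fin 8 × Fin 8)).filter
        (fun p => w8 p.1 p.2 = true ∧ (![b0, b1, b2, b3, b4, b5, b6, b7] : Fin 8 → Bool) p.1 = true ∧
          (![b0, b1, b2, b3, b4, b5, b6, b7] : Fin 8 → Bool) p.2 = false)).card := by
    decide +kernel
  intro B
  have hB : B = ![B 0, B 1, B 2, B 3, B 4, B 5, B 6, B 7] := by
    ext i; fin_cases i <;> rfl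
  rw [hB]
  exact key _ _ _ _ _ _ _ _

lemma w7_len3 : ∀ a, 3 ≤ (nbl w7 a).length := by decide
lemma w8_len3 : ∀ a, 3 ≤ (nbl w8 a).length := by decide
lemma w7_len4 : ∀ a, a ≠ 0 → a ≠ 2 → 4 ≤ (nbl w7 a).length := by decide
lemma w8_len4 : ∀ a, a ≠ 0 → a ≠ 2 → 4 ≤ (nbl w8 a).length := by decide

section

variable {V : Type*} {H : SimpleGraph V} (hT : Tgt H)

include hT

lemma x7_inj {f : Fin 7 → V} (hf : ∀ a b, x7 a b = true → H.Adj (f a) (f b)) :
    Function.Injective f := by
  intro a b hab
  by_contra hne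
  exact (x7_D1 a b hne).ne hT hf hab

lemma w7_inj {f : Fin 7 → V} (hf : ∀ a b, w7 a b = true → H.Adj (f a) (f b)) :
    Function.Injective f :=
  inj_of_cert hT hf _ rfl w7_pair w7_cert

lemma w8_inj {f : Fin 8 → V} (hf : ∀ a b, w8 a b = true → H.Adj (f a) (f b)) :
    Function.Injective f :=
  inj_of_cert hT hf _ rfl w8_pair w8_cert

lemma w7_gad {f : Fin 7 → V} (hf : ∀ a b, w7 a b = true → H.Adj (f a) (f b)) :
    GadIm H (Set.range f) (f 0) (f 2) :=
  gadIm_of hT hf (w7_inj hT hf) 0 2 (by decide) w7_len3 w7_len4 w7_conn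

lemma w8_gad {f : Fin 8 → V} (hf : ∀ a b, w8 a b = true → H.Adj (f a) (f b)) :
    GadIm H (Set.range f) (f 0) (f 2) :=
  gadIm_of hT hf (w8_inj hT hf) 0 2 (by decide) w8_len3 w8_len4 w8_conn

/-- Two copies of the seven-vertex gadget with the same image. -/
lemma w7_same {f g : Fin 7 → V} (hf : ∀ a b, w7 a b = true → H.Adj (f a) (f b))
    (hg : ∀ a b, w7 a b = true → H.Adj (g a) (g b)) (hr : Set.range f = Set.range g)
    (z : V) (hz : H.Adj (f 0) z) (hzr : z ∉ Set.range f) (hl : H.Adj (f 2) (g 0)) : False := by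
  classical
  have fi := w7_inj hT hf
  have gi := w7_inj hT hg
  -- the graph induced on the image is exactly the gadget
  have hM : ∀ a b, H.Adj (f a) (f b) → w7 a b = true := by
    have h02 : ¬ H.Adj (f 0) (f 2) := by
      intro h
      have h1 := hT.five (f 0) (z :: f 2 :: (nbl w7 0).map f)
        (List.nodup_cons.2 ⟨by
          intro h
          rcases List.mem_cons.1 h with h | h
          · exact hzr ⟨2, h.symm⟩
          · obtain ⟨c, _, rfl⟩ := List.mem_map.1 h
            exact hzr ⟨c, rfl⟩, List.nodup_cons.2 ⟨by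
              intro h
              obtain ⟨c, hc, hc'⟩ := List.mem_map.1 h
              have := fi hc'
              subst this
              revert hc
              decide, (nbl_nodup 0).map fi⟩⟩)
        (by
          intro t ht
          rcases List.mem_cons.1 ht with rfl | ht
          · exact hz
          · rcases List.mem_cons.1 ht with rfl | ht
            · exact h
            · obtain ⟨c, hc, rfl⟩ := List.mem_map.1 ht
              exact hf _ _ (mem_nbl.1 hc))
      have h2 := w7_len3 0
      simp only [List.length_cons, List.length_map] at h1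
      omega
    have port : ∀ a b, H.Adj (f a) (f b) → w7 a b = false → a = 0 ∨ a = 2 := by
      intro a b hab hw
      by_contra hn
      push Not at hn
      have h1 := hT.five (f a) (f b :: (nbl w7 a).map f)
        (List.nodup_cons.2 ⟨by
          intro h
          obtain ⟨c, hc, hc'⟩ := List.mem_map.1 h
          have := fi hc'
          subst this
          rw [mem_nbl, hw] at hc
          exact Bool.noConfusion hc, (nbl_nodup a).map fi⟩)
        (by
          intro t ht
          rcases List.mem_cons.1 ht with rfl | ht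
          · exact hab
          · obtain ⟨c, hc, rfl⟩ := List.mem_map.1 ht
            exact hf _ _ (mem_nbl.1 hc))
      have h2 := w7_len4 a hn.1 hn.2
      simp only [List.length_cons, List.length_map] at h1
      omega
    intro a b hab
    by_contra hw
    rw [Bool.not_eq_true] at hw
    have h1 := port a b hab hw
    have h2 := port b a hab.symm (by rw [w7_symm]; exact hw)
    rcases h1 with rfl | rfl <;> rcases h2 with rfl | rfl
    · exact hab.ne rfl
    · exact h02 hab
    · exact h02 hab.symm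
    · exact hab.ne rfl
  have hσ : ∀ a, ∃ b, f b = g a := by
    intro a
    have : g a ∈ Set.range f := by rw [hr]; exact ⟨a, rfl⟩
    exact this
  choose σ hσ using hσ
  have σi : Function.Injective σ := by
    intro a b hab
    apply gi
    rw [← hσ a, ← hσ b, hab]
  have σh : ∀ a b, w7 a b = true → w7 (σ a) (σ b) = true := by
    intro a b hab
    apply hM
    rw [hσ, hσ]
    exact hg a b hab
  have hdeg : ∀ a ∈ (Finset.univ : Finset (Fin 7)), (nbl w7 a).length ≤ (nbl w7 (σ a)).length := by
    intro a _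
    have h1 : ((nbl w7 a).map σ) ⊆ nbl w7 (σ a) := by
      intro t ht
      obtain ⟨c, hc, rfl⟩ := List.mem_map.1 ht
      exact mem_nbl.2 (σh _ _ (mem_nbl.1 hc))
    have h2 := (((nbl_nodup a).map σi).subperm h1).length_le
    simpa using h2
  have hsum : ∑ a, (nbl w7 a).length = ∑ a, (nbl w7 (σ a)).length :=
    ((Equiv.ofBijective σ (Finite.injective_iff_bijective.1 σi)).sum_comp
      (fun a => (nbl w7 a).length)).symm
  have heq := (Finset.sum_eq_sum_iff_of_le hdeg).1 hsum 0 (Finset.mem_univ _)
  rw [← hσ 0] at hl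
  have h2 := hM _ _ hl
  revert heq h2
  generalize σ 0 = s
  revert s
  decide

end

end Pool.Agent.MP1d59
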