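import Pool.Agent.Lib.MP_1d59ee_co.GP

/-!
The discrete Stokes argument on the hexagonal projective plane.
-/

set_option autoImplicit false

namespace Pool.Agent.MP1d59

open SimpleGraph Finset

variable {T : Type*} {X : SimpleGraph T} {w : T → T → ℤ}

/-- A configuration of hexagonal projective type in `X`: `h` concentric layers, every layer
consisting of four sectors. -/
structure Conf (X : SimpleGraph T) (h : ℕ) (L U : Fin 4 → ℕ → ℕ → T) : Prop where
  a : ∀ q r j, r + 1 < h → j ≤ r → X.Adj (L q r j) (U q r j)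
  b : ∀ q r j, r + 1 < h → j ≤ r → X.Adj (L q (r + 1) j) (U q r j)
  c : ∀ q r j, r + 1 < h → j ≤ r → X.Adj (U q r j) (L q (r + 1) (j + 1))
  d : ∀ q r, r < h → X.Adj (L q r r) (L (q + 1) r 0)
  e : ∀ q r j, r + 1 = h → j ≤ r → X.Adj (L q r j) (L (q + 2) r j)

/-- weight of the arc of sector `q` in layer `r` -/
def arc (w : T → T → ℤ) (L U : Fin 4 → ℕ → ℕ → T) (q : Fin 4) (r : ℕ) : ℤ :=
  match r with
  | 0 => 0
  | r + 1 => ∑ j ∈ range (r + 1), (w (L q (r + 1) j) (U q r j) + w (U q r j) (L q (r + 1) (j + 1)))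

def per (w : T → T → ℤ) (L U : Fin 4 → ℕ → ℕ → T) (r : ℕ) : ℤ :=
  ∑ q : Fin 4, (arc w L U q r + w (L q r r) (L (q + 1) r 0))

lemma arc_step (hw : OddWt X w) (h6 : Six X w) {h : ℕ} {L U : Fin 4 → ℕ → ℕ → T}
    (C : Conf X h L U) (q : Fin 4) (r : ℕ) (hr : r + 1 < h) :
    arc w L U q r = arc w L U q (r + 1) - w (L q (r + 1) 0) (U q r 0)
      - w (U q r r) (L q (r + 1) (r + 1)) + w (L q r 0) (U q r 0) - w (L q r r) (U q r r) := by
  have e1 : arc w L U q (r + 1) = w (L q (r + 1) 0) (U q r 0)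
      + w (U q r r) (L q (r + 1) (r + 1))
      + ∑ j ∈ range r, (w (U q r j) (L q (r + 1) (j + 1)) + w (L q (r + 1) (j + 1)) (U q r (j + 1))) := by
    simp only [arc]
    rw [sum_add_distrib, sum_add_distrib, sum_range_succ', sum_range_succ (fun j => w (U q r j) _)]
    ring
  rw [e1]
  cases r with
  | zero => simp [arc]
  | succ r =>
    have key : ∀ j ∈ range (r + 1),
        w (U q (r+1) j) (L q (r + 2) (j + 1)) + w (L q (r + 2) (j + 1)) (U q (r+1) (j + 1))
        = (w (L q (r + 1) j) (U q r j) + w (U q r j) (L q (r + 1) (j + 1)))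
          + (w (L q (r+1) (j + 1)) (U q (r+1) (j + 1)) - w (L q (r+1) j) (U q (r+1) j)) := by
      intro j hj
      have hj' : j < r + 1 := mem_range.mp hj
      have a1 := C.a q (r+1) j hr (by omega)
      have a2 := C.c q (r+1) j hr (by omega)
      have a3 := C.b q (r+1) (j+1) hr (by omega)
      have a4 := C.a q (r+1) (j+1) hr (by omega)
      have a5 := C.c q r j (by omega) (by omega)
      have a6 := C.b q r j (by omega) (by omega)
      have s := h6 a1 a2 a3 a4.symm a5.symm a6.symm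
      have t4 := hw.anti a4
      have t5 := hw.anti a5
      have t6 := hw.anti a6
      linarith
    rw [sum_congr rfl key, sum_add_distrib,
      sum_range_sub (fun j => w (L q (r+1) j) (U q (r+1) j)) (r+1)]
    simp only [arc]
    ring

lemma ax_step (hw : OddWt X w) (h6 : Six X w) {h : ℕ} {L U : Fin 4 → ℕ → ℕ → T}
    (C : Conf X h L U) (q : Fin 4) (r : ℕ) (hr : r + 1 < h) :
    w (L q r r) (L (q + 1) r 0) = w (L q r r) (U q r r) + w (U q r r) (L q (r + 1) (r + 1))
      + w (L q (r + 1) (r + 1)) (L (q + 1) (r + 1) 0)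
      + w (L (q + 1) (r + 1) 0) (U (q + 1) r 0) - w (L (q + 1) r 0) (U (q + 1) r 0) := by
  have a1 := C.a q r r hr le_rfl
  have a2 := C.c q r r hr le_rfl
  have a3 := C.d q (r+1) hr
  have a4 := C.b (q+1) r 0 hr (by omega)
  have a5 := C.a (q+1) r 0 hr (by omega)
  have a6 := C.d q r (by omega)
  have s := h6 a1 a2 a3 a4 a5.symm a6.symm
  have t5 := hw.anti a5
  have t6 := hw.anti a6
  linarith

lemma sum_shift (f : Fin 4 → ℤ) : ∑ q : Fin 4, f (q + 1) = ∑ q : Fin 4, f q :=
  Equiv.sum_comp (Equiv.addRight (1 : Fin 4)) f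

lemma per_zero (hw : OddWt X w) (h6 : Six X w) {h : ℕ} {L U : Fin 4 → ℕ → ℕ → T}
    (C : Conf X h L U) (r : ℕ) (hr : r < h) : per w L U r = 0 := by
  induction r with
  | zero =>
    simp only [per, arc, zero_add]
    rw [Fin.sum_univ_four]
    exact hw.four (C.d 0 0 hr) (C.d 1 0 hr) (C.d 2 0 hr) (C.d 3 0 hr)
  | succ r ih =>
    rw [← ih (by omega)]
    simp only [per]
    have e : ∀ q : Fin 4, arc w L U q r + w (L q r r) (L (q + 1) r 0)
        = (arc w L U q (r + 1) + w (L q (r + 1) (r + 1)) (L (q + 1) (r + 1) 0))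
          + ((w (L (q + 1) (r + 1) 0) (U (q + 1) r 0) - w (L (q + 1) r 0) (U (q + 1) r 0))
            - (w (L q (r + 1) 0) (U q r 0) - w (L q r 0) (U q r 0))) := by
      intro q
      rw [arc_step hw h6 C q r hr, ax_step hw h6 C q r hr]
      ring
    have tel : ∀ A B : Fin 4 → ℤ, ∑ q : Fin 4, (A q + (B (q + 1) - B q)) = ∑ q : Fin 4, A q := by
      intro A B
      rw [sum_add_distrib, sum_sub_distrib, sum_shift B]
      ring
    rw [Finset.sum_congr rfl (fun q _ => e q)]
    exact (tel (fun q => arc w L U q (r + 1) + w (L q (r + 1) (r + 1)) (L (q + 1) (r + 1) 0))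
      (fun q => w (L q (r + 1) 0) (U q r 0) - w (L q r 0) (U q r 0))).symm

lemma arc_even (hw : OddWt X w) {h : ℕ} {L U : Fin 4 → ℕ → ℕ → T}
    (C : Conf X h L U) (q : Fin 4) (r : ℕ) (hr : r < h) : Even (arc w L U q r) := by
  cases r with
  | zero => simp [arc]
  | succ r =>
    simp only [arc]
    apply Finset.even_sum
    intro j hj
    have hj' : j < r + 1 := mem_range.mp hj
    exact (hw.odd (C.b q r j hr (by omega))).add_odd (hw.odd (C.c q r j hr (by omega)))

lemma arc_top (hw : OddWt X w) (h6 : Six X w) {h : ℕ} {L U : Fin 4 → ℕ → ℕ → T}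
    (C : Conf X h L U) (q : Fin 4) (r : ℕ) (hr : r + 1 = h) :
    arc w L U q r - arc w L U (q + 2) r + w (L q r r) (L (q + 2) r r)
      - w (L q r 0) (L (q + 2) r 0) = 0 := by
  cases r with
  | zero => simp [arc]
  | succ r =>
    simp only [arc]
    rw [← sum_sub_distrib]
    have key : ∀ j ∈ range (r + 1),
        (w (L q (r + 1) j) (U q r j) + w (U q r j) (L q (r + 1) (j + 1)))
        - (w (L (q+2) (r + 1) j) (U (q+2) r j) + w (U (q+2) r j) (L (q+2) (r + 1) (j + 1)))
        = w (L q (r+1) j) (L (q+2) (r+1) j) - w (L q (r+1) (j+1)) (L (q+2) (r+1) (j+1)) := by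
      intro j hj
      have hj' : j < r + 1 := mem_range.mp hj
      have a1 := C.b q r j (by omega) (by omega)
      have a2 := C.c q r j (by omega) (by omega)
      have a3 := C.e q (r+1) (j+1) hr (by omega)
      have a4 := C.c (q+2) r j (by omega) (by omega)
      have a5 := C.b (q+2) r j (by omega) (by omega)
      have a6 := C.e q (r+1) j hr (by omega)
      have s := h6 a1 a2 a3 a4.symm a5.symm a6.symm
      have t4 := hw.anti a4
      have t5 := hw.anti a5
      have t6 := hw.anti a6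
      linarith
    rw [sum_congr rfl key, sum_range_sub' (fun j => w (L q (r+1) j) (L (q+2) (r+1) j)) (r+1)]
    ring

lemma corner (hw : OddWt X w) {h : ℕ} {L U : Fin 4 → ℕ → ℕ → T}
    (C : Conf X h L U) (q : Fin 4) (r : ℕ) (hr : r + 1 = h) :
    w (L q r r) (L (q + 1) r 0) + w (L (q + 1) r 0) (L (q + 3) r 0)
      - w (L (q + 2) r r) (L (q + 3) r 0) - w (L q r r) (L (q + 2) r r) = 0 := by
  have a1 := C.d q r (by omega)
  have a2 := C.e (q+1) r 0 hr (by omega)
  have a3 := C.d (q+2) r (by omega)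
  have a4 := C.e q r r hr le_rfl
  have e1 : q + 1 + 2 = q + 3 := by rw [add_assoc]; rfl
  have e2 : q + 2 + 1 = q + 3 := by rw [add_assoc]; rfl
  rw [e1] at a2
  rw [e2] at a3
  have s := hw.four a1 a2 a3.symm a4.symm
  have t3 := hw.anti a3
  have t4 := hw.anti a4
  linarith

/-- There is no configuration of hexagonal projective type in a graph with an odd weight. -/
theorem no_conf (hw : OddWt X w) (h6 : Six X w) {h : ℕ} (hh : 0 < h) {L U : Fin 4 → ℕ → ℕ → T}
    (C : Conf X h L U) : False := by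
  obtain ⟨r, rfl⟩ : ∃ r, h = r + 1 := ⟨h - 1, by omega⟩
  have hP := per_zero hw h6 C r (by omega)
  simp only [per] at hP
  rw [Fin.sum_univ_four] at hP
  have t0 := arc_top hw h6 C 0 r rfl
  have t1 := arc_top hw h6 C 1 r rfl
  have c0 := corner hw C 0 r rfl
  have c1 := corner hw C 1 r rfl
  have f1 : (0 : Fin 4) + 1 = 1 := rfl
  have f2 : (0 : Fin 4) + 2 = 2 := rfl
  have f3 : (0 : Fin 4) + 3 = 3 := rfl
  have f4 : (1 : Fin 4) + 1 = 2 := rfl
  have f5 : (1 : Fin 4) + 2 = 3 := rfl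
  have f6 : (1 : Fin 4) + 3 = 0 := rfl
  have f7 : (2 : Fin 4) + 1 = 3 := rfl
  have f8 : (3 : Fin 4) + 1 = 0 := rfl
  rw [f2] at t0
  rw [f5] at t1
  rw [f1, f2, f3] at c0
  rw [f4, f5, f6] at c1
  rw [f1, f4, f7, f8] at hP
  have a := hw.anti (C.e 0 r 0 rfl (by omega))
  rw [f2] at a
  have ev0 := arc_even hw C 0 r (by omega)
  have ev1 := arc_even hw C 1 r (by omega)
  have o0 := hw.odd (C.d 0 r (by omega))
  have o1 := hw.odd (C.d 1 r (by omega))
  have oa := hw.odd (C.e 0 r 0 rfl (by omega))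
  rw [f1] at o0
  rw [f4] at o1
  rw [f2] at oa
  have hfin : arc w L U 0 r + arc w L U 1 r + w (L 0 r r) (L 1 r 0) + w (L 1 r r) (L 2 r 0)
      = w (L 0 r 0) (L 2 r 0) := by linarith
  have hev : Even (arc w L U 0 r + arc w L U 1 r + w (L 0 r r) (L 1 r 0)
      + w (L 1 r r) (L 2 r 0)) := by
    have := (ev0.add ev1).add (o0.add_odd o1)
    rwa [← add_assoc] at this
  rw [hfin] at hev
  exact (Int.not_even_iff_odd.mpr oa) hev

end Pool.Agent.MP1d59
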